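import Pool.Agent.H88.BR.Inst

/-!
# More bad instances

`inst K D a b c` is bad if an odd number `g ≥ 3` divides `K`, `c - b` and `a + 3b`, and is prime to `D + b`.
-/

set_option autoImplicit false

namespace Pool.Agent.H88.BS

open Finset Pool.Agent.H78.BN Pool.Agent.H56.BN Pool.Agent.H88.BR

/-- a letter is needed in a window of length two -/
lemma need_two {d D : ℤ} (hD : 0 < D) {a N : ℤ}
    (h1 : 4 * (a + 1) * d - (4 * N + 2) * D ≤ 4 * d - D)
    (h2 : -(4 * d - D) ≤ 4 * (a + 1) * d - (4 * N + 2) * D) :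
    1 ≤ Fl ((d:ℝ) / D) (a + 2) - Cl ((d:ℝ) / D) a := by
  have hDR : (0:ℝ) < D := by exact_mod_cast hD
  have h4 : N + 1 ≤ Fl ((d:ℝ) / D) (a + 2) := by
    unfold Fl
    rw [Int.le_floor]
    have h5 : ((a + 2 : ℤ) : ℝ) * ((d:ℝ) / D) + 1/4 = (4 * (a + 2) * d + D) / (4 * D) := by
      push_cast; field_simp
    rw [h5, le_div_iff₀ (by positivity)]
    have h6 : (N + 1) * (4 * D) ≤ 4 * (a + 2) * d + D := by linarith
    exact_mod_cast h6
  have h5 : Cl ((d:ℝ) / D) a ≤ N := by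
    unfold Cl
    rw [Int.ceil_le]
    have h5 : (a:ℝ) * ((d:ℝ) / D) - 1/4 = (4 * a * d - D) / (4 * D) := by field_simp
    rw [h5, div_le_iff₀ (by positivity)]
    have h6 : 4 * a * d - D ≤ N * (4 * D) := by linarith
    exact_mod_cast h6
  omega

/-- the arithmetic of the window -/
lemma exists_window {K D a b c g : ℤ} (hg3 : 3 ≤ g) (hg : Odd g) (hK : g ∣ K) (hcb : g ∣ c - b)
    (hab : g ∣ a + 3 * b) (hco : IsCoprime (D + b) g) (ha : 1 ≤ a) (hb : 1 ≤ b) (hc : 1 ≤ c)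
    (haD : a ≤ D) (hbD : b ≤ D) (hcD : c ≤ D) (hKD : 6 * g * D ≤ K) :
    ∃ t N1 N2 N3 : ℤ, 1 ≤ t ∧
      (4 * t * (K * (D + a) + 1) - (4 * N1 + 2) * (4 * K * D + 1)
        ≤ 4 * (K * (D + a) + 1) - (4 * K * D + 1)) ∧
      (-(4 * (K * (D + a) + 1) - (4 * K * D + 1))
        ≤ 4 * t * (K * (D + a) + 1) - (4 * N1 + 2) * (4 * K * D + 1)) ∧
      (4 * t * (K * (D + b)) - (4 * N2 + 2) * (4 * K * D + 1)
        ≤ 4 * (K * (D + b)) - (4 * K * D + 1)) ∧
      (-(4 * (K * (D + b)) - (4 * K * D + 1))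
        ≤ 4 * t * (K * (D + b)) - (4 * N2 + 2) * (4 * K * D + 1)) ∧
      (4 * t * (K * (D + c)) - (4 * N3 + 2) * (4 * K * D + 1)
        ≤ 4 * (K * (D + c)) - (4 * K * D + 1)) ∧
      (-(4 * (K * (D + c)) - (4 * K * D + 1))
        ≤ 4 * t * (K * (D + c)) - (4 * N3 + 2) * (4 * K * D + 1)) := by
  obtain ⟨g', hg'⟩ := hg
  obtain ⟨k, hk⟩ := hK
  obtain ⟨s, hs⟩ := hcb
  obtain ⟨w, hw⟩ := hab
  -- `j` with `2 j (D + b) = -1` modulo `g`
  obtain ⟨u, v, huv⟩ := hco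
  -- `u (D + b) + v g = 1`; `2 * (g' + 1) = g + 1`
  set j0 : ℤ := -(u * (g' + 1)) with hj0
  set j : ℤ := j0 % g + g with hj
  have hgpos : 0 < g := by linarith
  have hj1 : 0 ≤ j0 % g := Int.emod_nonneg _ hgpos.ne'
  have hj2 : j0 % g < g := Int.emod_lt_of_pos _ hgpos
  have hjg : g ≤ j := by rw [hj]; linarith
  have hj2g : j ≤ 2 * g := by rw [hj]; linarith
  have hjm : ∃ x, j = j0 + g * x := by
    refine ⟨1 - j0 / g, ?_⟩
    have := Int.emod_add_mul_ediv j0 g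
    rw [hj]
    linarith
  obtain ⟨x, hx⟩ := hjm
  have hkey : ∃ y, 2 * j * (D + b) + 1 = g * y := by
    refine ⟨v * (g + 1) - 1 + 2 * x * (D + b), ?_⟩
    have h1 : 2 * (g' + 1) = g + 1 := by linarith
    have h2 : u * (D + b) = 1 - v * g := by linarith
    rw [hx, hj0]
    have h3 : 2 * (-(u * (g' + 1)) + g * x) * (D + b) + 1
        = -(2 * (g' + 1)) * (u * (D + b)) + 2 * g * x * (D + b) + 1 := by ring
    rw [h3, h1, h2]
    ring
  obtain ⟨y, hy⟩ := hkey
  -- `l`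
  set m : ℤ := 4 * j with hm
  set l : ℤ := (b * m) % g with hl
  have hl1 : 0 ≤ l := Int.emod_nonneg _ hgpos.ne'
  have hl2 : l < g := Int.emod_lt_of_pos _ hgpos
  have hlm : ∃ z, l = b * m + g * z := by
    refine ⟨-(b * m / g), ?_⟩
    have := Int.emod_add_mul_ediv (b * m) g
    linarith
  obtain ⟨z, hz⟩ := hlm
  -- the time
  have ht : ∃ t, g * t = m * D + 2 + l * (4 * K * D + 1) := by
    refine ⟨2 * y + z + 4 * k * D * l, ?_⟩
    rw [hk]
    have h1 : g * (2 * y + z + 4 * k * D * l) = 2 * (g * y) + g * z + 4 * g * k * D * l := by ring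
    rw [h1, ← hy]
    have h2 : g * z = l - b * m := by linarith
    rw [h2, hm]
    ring
  obtain ⟨t, ht⟩ := ht
  have hmpos : 4 * g ≤ m := by rw [hm]; linarith
  have hm8 : m ≤ 8 * g := by rw [hm]; linarith
  have hDpos : 1 ≤ D := by linarith
  have hKpos : 9 ≤ K := by
    have : 6 * g * 1 ≤ 6 * g * D := mul_le_mul_of_nonneg_left hDpos (by linarith)
    linarith
  have hmD : 0 ≤ m * D := mul_nonneg (by linarith) (by linarith)
  have hlD : 0 ≤ l * (4 * K * D + 1) := by positivity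
  have ht1 : 1 ≤ t := by
    by_contra hcon
    push Not at hcon
    have : g * t ≤ g * 0 := mul_le_mul_of_nonneg_left (by omega) (by linarith)
    linarith
  -- the general letter: demand `K (D + e) + f`, `g ∣ (4 K l + m) e + l σ`
  have hmod : ∀ e σ n : ℤ, (4:ℤ) ∣ σ + 1 → g * n = (4 * K * l + m) * e + l * σ →
      ∃ N, 4 * N + 2 - t = n := by
    intro e σ n hσ hn
    obtain ⟨σ', hσ'⟩ := hσ
    have h1 : (4:ℤ) ∣ g * (n + t - 2) := by
      have h2 : g * (n + t - 2) = ((4 * K * l + m) * e + l * σ) + (m * D + 2 + l * (4 * K * D + 1)) - 2 * g := by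
        rw [← hn, ← ht]; ring
      rw [h2, hm]
      have h3 : σ = 4 * σ' - 1 := by linarith
      rw [h3]
      refine ⟨K * l * e + j * e + l * σ' + j * D + K * D * l - g', ?_⟩
      rw [hg']
      ring
    have h4 : IsCoprime (4:ℤ) g := by
      have : IsCoprime ((2:ℤ) ^ 2) g := by
        apply IsCoprime.pow_left
        exact ⟨-g', 1, by rw [hg']; ring⟩
      have e4 : ((2:ℤ) ^ 2) = 4 := by norm_num
      rwa [e4] at this
    obtain ⟨N, hN⟩ := h4.dvd_of_dvd_mul_left h1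
    exact ⟨N, by linarith⟩
  -- the deviation
  have hdev : ∀ e σ n N : ℤ, g * n = (4 * K * l + m) * e + l * σ → 4 * N + 2 - t = n →
      g * (t * (4 * K * e + σ) - (4 * N + 2 - t) * (4 * K * D + 1))
        = 8 * K * e + 2 * σ + m * D * σ - m * e := by
    intro e σ n N hn hN
    rw [hN]
    have h1 : g * (t * (4 * K * e + σ) - n * (4 * K * D + 1))
        = (g * t) * (4 * K * e + σ) - (g * n) * (4 * K * D + 1) := by ring
    rw [h1, ht, hn]
    ring
  -- bounds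
  have hmDle : m * D ≤ 8 * g * D := mul_le_mul_of_nonneg_right hm8 (by linarith)
  have h3gD : 3 * (m * D) ≤ 4 * K := by linarith
  have cancel : ∀ X B : ℤ, g * X ≤ g * B → X ≤ B := fun X B h => le_of_mul_le_mul_left h hgpos
  -- letter one
  obtain ⟨n1, hn1⟩ : ∃ n1, g * n1 = (4 * K * l + m) * a + l * 3 := by
    refine ⟨4 * k * l * a + m * w + 3 * z, ?_⟩
    have h1 : g * (4 * k * l * a + m * w + 3 * z) = 4 * (g * k) * l * a + m * (g * w) + 3 * (g * z) := by ring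
    have h2 : g * z = l - b * m := by linarith
    rw [h1, ← hk, ← hw, h2]
    ring
  obtain ⟨n2, hn2⟩ : ∃ n2, g * n2 = (4 * K * l + m) * b + l * (-1) := by
    refine ⟨4 * k * l * b - z, ?_⟩
    have h1 : g * (4 * k * l * b - z) = 4 * (g * k) * l * b - g * z := by ring
    have h2 : g * z = l - b * m := by linarith
    rw [h1, ← hk, h2]
    ring
  obtain ⟨n3, hn3⟩ : ∃ n3, g * n3 = (4 * K * l + m) * c + l * (-1) := by
    refine ⟨4 * k * l * c - z + m * s, ?_⟩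
    have h1 : g * (4 * k * l * c - z + m * s) = 4 * (g * k) * l * c - g * z + m * (g * s) := by ring
    have h2 : g * z = l - b * m := by linarith
    rw [h1, ← hk, h2, ← hs]
    ring
  obtain ⟨N1, hN1⟩ := hmod a 3 n1 ⟨1, by norm_num⟩ hn1
  obtain ⟨N2, hN2⟩ := hmod b (-1) n2 ⟨0, by norm_num⟩ hn2
  obtain ⟨N3, hN3⟩ := hmod c (-1) n3 ⟨0, by norm_num⟩ hn3
  have d1 := hdev a 3 n1 N1 hn1 hN1
  have d2 := hdev b (-1) n2 N2 hn2 hN2
  have d3 := hdev c (-1) n3 N3 hn3 hN3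
  have pKa : K ≤ K * a := le_mul_of_one_le_right (by linarith) ha
  have pKb : K ≤ K * b := le_mul_of_one_le_right (by linarith) hb
  have pKc : K ≤ K * c := le_mul_of_one_le_right (by linarith) hc
  have pma : m * a ≤ m * D := mul_le_mul_of_nonneg_left haD (by linarith)
  have pmb : m * b ≤ m * D := mul_le_mul_of_nonneg_left hbD (by linarith)
  have pmc : m * c ≤ m * D := mul_le_mul_of_nonneg_left hcD (by linarith)
  have pma0 : 0 ≤ m * a := mul_nonneg (by linarith) (by linarith)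
  have pmb0 : 0 ≤ m * b := mul_nonneg (by linarith) (by linarith)
  have pmc0 : 0 ≤ m * c := mul_nonneg (by linarith) (by linarith)
  have g1 : 3 * (4 * K * a + 3) ≤ g * (4 * K * a + 3) :=
    mul_le_mul_of_nonneg_right hg3 (by linarith)
  have g2 : 3 * (4 * K * b - 1) ≤ g * (4 * K * b - 1) :=
    mul_le_mul_of_nonneg_right hg3 (by linarith)
  have g3 : 3 * (4 * K * c - 1) ≤ g * (4 * K * c - 1) :=
    mul_le_mul_of_nonneg_right hg3 (by linarith)
  have u1 := cancel _ (4 * K * a + 3) (by rw [d1]; linarith)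
  have l1 := cancel (-(4 * K * a + 3)) _ (by rw [d1]; linarith)
  have u2 := cancel _ (4 * K * b - 1) (by rw [d2]; linarith)
  have l2 := cancel (-(4 * K * b - 1)) _ (by rw [d2]; linarith)
  have u3 := cancel _ (4 * K * c - 1) (by rw [d3]; linarith)
  have l3 := cancel (-(4 * K * c - 1)) _ (by rw [d3]; linarith)
  refine ⟨t, N1, N2, N3, ht1, ?_, ?_, ?_, ?_, ?_, ?_⟩ <;> linarith

/-- **More bad instances.** -/
theorem inst_bad2 {K D a b c g : ℕ} (hg3 : 3 ≤ g) (hg : Odd g) (hK : g ∣ K)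
    (hcb : (g:ℤ) ∣ (c:ℤ) - b) (hab : g ∣ a + 3 * b) (hco : Nat.Coprime (D + b) g)
    (ha : 1 ≤ a) (hb : 1 ≤ b) (hc : 1 ≤ c) (hlt : a + b + c < D) (hKD : 6 * g * D ≤ K) :
    ¬ Bstar (inst K D a b c) < 3 / 4 := by
  have htot := total_inst (K := K) (le_of_lt hlt)
  have hDpos : 0 < total (inst K D a b c) := by rw [htot]; omega
  have hDR : ((total (inst K D a b c) : ℕ) : ℝ) = ((4 * K * D + 1 : ℤ) : ℝ) := by
    rw [htot]; push_cast; ring
  intro hB
  obtain ⟨t, N1, N2, N3, ht, u1, l1, u2, l2, u3, l3⟩ := exists_window (K := (K:ℤ)) (D := (D:ℤ))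
    (a := a) (b := b) (c := c) (g := g) (by exact_mod_cast hg3) (by exact_mod_cast hg)
    (by exact_mod_cast hK) hcb (by exact_mod_cast hab)
    (by exact_mod_cast Nat.isCoprime_iff_coprime.2 hco)
    (by exact_mod_cast ha) (by exact_mod_cast hb) (by exact_mod_cast hc)
    (by exact_mod_cast (by omega : a ≤ D)) (by exact_mod_cast (by omega : b ≤ D))
    (by exact_mod_cast (by omega : c ≤ D)) (by exact_mod_cast hKD)
  obtain ⟨τ, hτ⟩ : ∃ τ : ℕ, (t : ℤ) = τ + 1 := ⟨(t - 1).toNat, by omega⟩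
  subst hτ
  have h3 := hall_of_Bstar_lt (inst K D a b c) hDpos hB τ (τ + 2) (by omega)
  have hTZ : (0:ℤ) < 4 * K * D + 1 := by positivity
  have r0 : rate (inst K D a b c) 0 = (((K * (D + a) + 1 : ℤ) : ℝ)) / ((4 * K * D + 1 : ℤ) : ℝ) := by
    unfold rate; rw [hDR, inst_zero]; push_cast; ring
  have r1 : rate (inst K D a b c) 1 = (((K * (D + b) : ℤ) : ℝ)) / ((4 * K * D + 1 : ℤ) : ℝ) := by
    unfold rate; rw [hDR, inst_one]; push_cast; ring
  have r2 : rate (inst K D a b c) 2 = (((K * (D + c) : ℤ) : ℝ)) / ((4 * K * D + 1 : ℤ) : ℝ) := by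
    unfold rate; rw [hDR, inst_two]; push_cast; ring
  have k0 := need_two hTZ u1 l1
  have k1 := need_two hTZ u2 l2
  have k2 := need_two hTZ u3 l3
  rw [← r0] at k0
  rw [← r1] at k1
  rw [← r2] at k2
  rw [Fin.sum_univ_four] at h3
  have m0 := le_max_right (0:ℤ) (Fl (rate (inst K D a b c) 0) ((τ + 2 : ℕ) : ℤ)
      - Cl (rate (inst K D a b c) 0) (τ : ℤ))
  have m1 := le_max_right (0:ℤ) (Fl (rate (inst K D a b c) 1) ((τ + 2 : ℕ) : ℤ)
      - Cl (rate (inst K D a b c) 1) (τ : ℤ))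
  have m2 := le_max_right (0:ℤ) (Fl (rate (inst K D a b c) 2) ((τ + 2 : ℕ) : ℤ)
      - Cl (rate (inst K D a b c) 2) (τ : ℤ))
  have m3 := le_max_left (0:ℤ) (Fl (rate (inst K D a b c) 3) ((τ + 2 : ℕ) : ℤ)
      - Cl (rate (inst K D a b c) 3) (τ : ℤ))
  push_cast at h3 m0 m1 m2 m3
  omega

end Pool.Agent.H88.BS
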