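import Pool.Agent.H88.BS.Soft
import Mathlib.NumberTheory.Padics.PadicNumbers
import Mathlib.Topology.Algebra.MvPolynomial

/-!
# The `ℓ`-adic behaviour of representable functions
-/

set_option autoImplicit false

namespace Pool.Agent.H88.BS

open Polynomial Filter Pool.Agent.H88.BR

/-- after shrinking, a polynomial is zero or it has a lowest coefficient without zeros -/
lemma low {b : Prop} {U : Set V} (hU : IsOpen U) (hne : U.Nonempty) (P : (nice b U)[X]) :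
    ∃ U', U' ⊆ U ∧ IsOpen U' ∧ U'.Nonempty ∧
      ((∀ v ∈ U', P.map (ev v) = 0) ∨
       ∃ j, ∀ v ∈ U', (∀ i < j, (P.coeff i).1 v = 0) ∧ (P.coeff j).1 v ≠ 0) := by
  classical
  by_cases hz : ∃ j, ∃ v ∈ U, (P.coeff j).1 v ≠ 0
  · set j := Nat.find hz with hj
    obtain ⟨v₀, hv₀, hne₀⟩ := Nat.find_spec hz
    have hcont : ContinuousOn (P.coeff j).1 U := (P.coeff j).2.1
    refine ⟨U ∩ (P.coeff j).1 ⁻¹' ({0}ᶜ), Set.inter_subset_left,
      hcont.isOpen_inter_preimage hU isOpen_compl_singleton, ⟨v₀, hv₀, hne₀⟩, Or.inr ⟨j, ?_⟩⟩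
    rintro v ⟨hv, hv'⟩
    refine ⟨fun i hi => ?_, hv'⟩
    have h1 := Nat.find_min hz hi
    by_contra h2
    exact h1 ⟨v, hv, h2⟩
  · push Not at hz
    refine ⟨U, Set.Subset.refl _, hU, hne, Or.inl fun v hv => ?_⟩
    ext j
    rw [Polynomial.coeff_map, ev_apply, Polynomial.coeff_zero]
    exact hz j v hv

/-- factorials tend to zero -/
lemma fact_padic (ℓ : ℕ) [Fact ℓ.Prime] :
    Tendsto (fun k : ℕ => ((k.factorial : ℕ) : ℚ_[ℓ])) atTop (nhds 0) := by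
  have hℓ : 1 < ℓ := (Fact.out : ℓ.Prime).one_lt
  rw [tendsto_zero_iff_norm_tendsto_zero]
  rw [Metric.tendsto_atTop]
  intro ε hε
  obtain ⟨n, hn⟩ := exists_pow_lt_of_lt_one hε (show ((ℓ:ℝ)⁻¹) < 1 by
    apply inv_lt_one_of_one_lt₀
    exact_mod_cast hℓ)
  refine ⟨ℓ ^ n, fun k hk => ?_⟩
  have hdvd : ((ℓ : ℤ) ^ n) ∣ ((k.factorial : ℕ) : ℤ) := by
    have : ℓ ^ n ∣ k.factorial := Nat.dvd_factorial (by positivity) hk
    exact_mod_cast this
  have h1 := (Padic.norm_int_le_pow_iff_dvd (p := ℓ) ((k.factorial : ℕ) : ℤ) n).2 hdvd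
  rw [Real.dist_eq, sub_zero, abs_of_nonneg (norm_nonneg _)]
  refine lt_of_le_of_lt ?_ hn
  have h2 : ((((k.factorial : ℕ) : ℤ) : ℤ) : ℚ_[ℓ]) = ((k.factorial : ℕ) : ℚ_[ℓ]) := by push_cast; rfl
  rw [h2] at h1
  refine le_trans h1 (le_of_eq ?_)
  rw [zpow_neg, zpow_natCast, inv_pow]

/-- the `ℓ`-adic value of a rational polynomial at a factorial -/
lemma poly_padic (ℓ : ℕ) [Fact ℓ.Prime] (R : ℚ[X]) (j : ℕ) (h : ∀ i < j, R.coeff i = 0) :
    Tendsto (fun k : ℕ => ((R.eval ((k.factorial : ℕ) : ℚ) : ℚ) : ℚ_[ℓ]) /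
      ((k.factorial : ℕ) : ℚ_[ℓ]) ^ j) atTop (nhds ((R.coeff j : ℚ) : ℚ_[ℓ])) := by
  obtain ⟨S, hS⟩ := Polynomial.X_pow_dvd_iff.2 h
  have h1 : R.coeff j = S.coeff 0 := by
    have := Polynomial.coeff_X_pow_mul S j 0
    rw [zero_add] at this
    rw [hS, this]
  have h2 : Continuous fun x : ℚ_[ℓ] => (S.map (algebraMap ℚ ℚ_[ℓ])).eval x :=
    Polynomial.continuous _
  have h3 := (h2.tendsto 0).comp (fact_padic ℓ)
  have h4 : (S.map (algebraMap ℚ ℚ_[ℓ])).eval 0 = ((R.coeff j : ℚ) : ℚ_[ℓ]) := by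
    rw [← Polynomial.coeff_zero_eq_eval_zero, Polynomial.coeff_map, h1]
    rfl
  rw [h4] at h3
  refine h3.congr fun k => ?_
  have h5 : ((k.factorial : ℕ) : ℚ_[ℓ]) ≠ 0 := by exact_mod_cast (Nat.factorial_pos k).ne'
  have h6 : ((R.eval ((k.factorial : ℕ) : ℚ) : ℚ) : ℚ_[ℓ]) =
      ((k.factorial : ℕ) : ℚ_[ℓ]) ^ j * (S.map (algebraMap ℚ ℚ_[ℓ])).eval ((k.factorial : ℕ) : ℚ_[ℓ]) := by
    have h7 := Polynomial.eval_map_apply (p := S) (f := algebraMap ℚ ℚ_[ℓ]) (((k.factorial : ℕ) : ℚ))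
    have h8 : (algebraMap ℚ ℚ_[ℓ]) ((k.factorial : ℕ) : ℚ) = ((k.factorial : ℕ) : ℚ_[ℓ]) := by simp
    rw [h8] at h7
    rw [h7, hS, Polynomial.eval_mul, Polynomial.eval_pow, Polynomial.eval_X]
    push_cast
    rfl
  rw [h6, mul_div_cancel_left₀ _ (pow_ne_zero _ h5)]
  rfl

/-- `ℓ`-adic representation of a function -/
def PRep (U : Set V) (g : V → ℝ → ℝ) : Prop :=
  (∀ q : Fin 3 → ℚ, toR q ∈ U → ∀ᶠ k : ℕ in atTop, g (toR q) ((k.factorial : ℕ) : ℝ) = 0) ∨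
  ∃ (p s : MP) (e : ℤ), ∀ q : Fin 3 → ℚ, toR q ∈ U →
    MvPolynomial.eval q p ≠ 0 ∧ MvPolynomial.eval q s ≠ 0 ∧
    ∃ x : ℕ → ℚ, (∀ᶠ k : ℕ in atTop, g (toR q) ((k.factorial : ℕ) : ℝ) = (x k : ℝ)) ∧
      ∀ (ℓ : ℕ) [Fact ℓ.Prime], Tendsto (fun k : ℕ => ((x k : ℚ) : ℚ_[ℓ]) /
        ((k.factorial : ℕ) : ℚ_[ℓ]) ^ e) atTop
        (nhds (((MvPolynomial.eval q p / MvPolynomial.eval q s : ℚ)) : ℚ_[ℓ]))

lemma PRep.mono {U U' : Set V} (h : U' ⊆ U) {g : V → ℝ → ℝ} (hg : PRep U g) : PRep U' g := by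
  rcases hg with hg | ⟨p, s, e, hg⟩
  · exact Or.inl fun q hq => hg q (h hq)
  · exact Or.inr ⟨p, s, e, fun q hq => hg q (h hq)⟩

/-- the rational polynomial at a rational point -/
lemma exists_rat {U : Set V} (P : (nice True U)[X]) {q : Fin 3 → ℚ} (hq : toR q ∈ U) :
    ∃ R : ℚ[X], R.map (algebraMap ℚ ℝ) = P.map (ev (toR q)) := by
  have h1 : P.map (ev (toR q)) ∈ Polynomial.lifts (algebraMap ℚ ℝ) := by
    rw [Polynomial.lifts_iff_coeff_lifts]
    intro j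
    rw [Polynomial.coeff_map, ev_apply]
    obtain ⟨r, hr⟩ := ((P.coeff j).2.2 trivial).value hq
    exact ⟨r, by rw [hr]; rfl⟩
  exact (Polynomial.mem_lifts _).1 h1

lemma rat_eval {R : ℚ[X]} {p : ℝ[X]} (h : R.map (algebraMap ℚ ℝ) = p) (n : ℕ) :
    p.eval ((n : ℕ) : ℝ) = ((R.eval ((n : ℕ) : ℚ) : ℚ) : ℝ) := by
  rw [← h]
  have := Polynomial.eval_map_apply (p := R) (f := algebraMap ℚ ℝ) ((n : ℕ) : ℚ)
  simpa using this

/-- representable functions are `ℓ`-adically representable after shrinking -/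
theorem Rep.padic {U : Set V} (hU : IsOpen U) (hne : U.Nonempty) {g : V → ℝ → ℝ}
    (hg : Rep True U g) : ∃ U', U' ⊆ U ∧ IsOpen U' ∧ U'.Nonempty ∧ PRep U' g := by
  obtain ⟨P, Q, hQ, hE⟩ := hg
  obtain ⟨U₁, a1, a2, a3, a4⟩ := low hU hne P
  rcases a4 with a4 | ⟨j, a4⟩
  · refine ⟨U₁, a1, a2, a3, Or.inl fun q hq => ?_⟩
    filter_upwards [hE q (a1 hq)] with k hk
    rw [hk]
    unfold pv
    rw [a4 _ hq, Polynomial.eval_zero, zero_div]
  obtain ⟨U₂, b1, b2, b3, b4⟩ := low a2 a3 (Q.map (res a1))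
  have hcQ : ∀ (i : ℕ) (v : V), ((Q.map (res a1)).coeff i : nice True U₁).1 v = (Q.coeff i).1 v := by
    intro i v
    rw [Polynomial.coeff_map]
    rfl
  rcases b4 with b4 | ⟨i, b4⟩
  · obtain ⟨v, hv⟩ := b3
    have h1 := b4 v hv
    rw [map_res] at h1
    exact absurd h1 (hQ v (a1 (b1 hv)))
  refine ⟨U₂, b1.trans a1, b2, b3, Or.inr ?_⟩
  obtain ⟨p, p', hp⟩ := (P.coeff j).2.2 trivial
  obtain ⟨s, s', hs⟩ := (Q.coeff i).2.2 trivial
  refine ⟨p * s', p' * s, (j : ℤ) - i, fun q hq => ?_⟩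
  have hq1 : toR q ∈ U₁ := b1 hq
  have hq0 : toR q ∈ U := a1 hq1
  have hPj := (a4 _ hq1).2
  have hQi := (b4 _ hq).2
  rw [hcQ] at hQi
  have k1 := hp _ hq0
  have k2 := hs _ hq0
  -- rational numbers
  have e1 : MvPolynomial.eval q p' ≠ 0 := by
    intro h0
    apply k1.1
    rw [mv_toR, h0]
    simp
  have e2 : MvPolynomial.eval q s' ≠ 0 := by
    intro h0
    apply k2.1
    rw [mv_toR, h0]
    simp
  have e3 : MvPolynomial.eval q p ≠ 0 := by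
    intro h0
    apply hPj
    rw [k1.2, mv_toR, h0]
    simp
  have e4 : MvPolynomial.eval q s ≠ 0 := by
    intro h0
    apply hQi
    rw [k2.2, mv_toR, h0]
    simp
  rw [map_mul, map_mul]
  refine ⟨mul_ne_zero e3 e2, mul_ne_zero e1 e4, ?_⟩
  obtain ⟨R, hR⟩ := exists_rat P hq0
  obtain ⟨S, hS⟩ := exists_rat Q hq0
  have hRc : ∀ n, ((R.coeff n : ℚ) : ℝ) = (P.coeff n).1 (toR q) := by
    intro n
    have := congrArg (fun f : ℝ[X] => f.coeff n) hR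
    simp only [Polynomial.coeff_map, ev_apply] at this
    exact this
  have hSc : ∀ n, ((S.coeff n : ℚ) : ℝ) = (Q.coeff n).1 (toR q) := by
    intro n
    have := congrArg (fun f : ℝ[X] => f.coeff n) hS
    simp only [Polynomial.coeff_map, ev_apply] at this
    exact this
  have hR0 : ∀ n < j, R.coeff n = 0 := by
    intro n hn
    have h1 := hRc n
    rw [(a4 _ hq1).1 n hn] at h1
    exact_mod_cast h1
  have hS0 : ∀ n < i, S.coeff n = 0 := by
    intro n hn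
    have h1 := hSc n
    have h2 := (b4 _ hq).1 n hn
    rw [hcQ] at h2
    rw [h2] at h1
    exact_mod_cast h1
  have hRj : R.coeff j = MvPolynomial.eval q p / MvPolynomial.eval q p' := by
    have h1 := hRc j
    rw [k1.2, mv_toR, mv_toR] at h1
    exact_mod_cast h1
  have hSi : S.coeff i = MvPolynomial.eval q s / MvPolynomial.eval q s' := by
    have h1 := hSc i
    rw [k2.2, mv_toR, mv_toR] at h1
    exact_mod_cast h1
  refine ⟨fun k => R.eval ((k.factorial : ℕ) : ℚ) / S.eval ((k.factorial : ℕ) : ℚ), ?_, ?_⟩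
  · filter_upwards [hE q hq0] with k hk
    rw [hk]
    unfold pv
    rw [rat_eval hR, rat_eval hS]
    push_cast
    rfl
  · intro ℓ hℓ
    have t1 := poly_padic ℓ R j hR0
    have t2 := poly_padic ℓ S i hS0
    have hne : ((S.coeff i : ℚ) : ℚ_[ℓ]) ≠ 0 := by
      have : S.coeff i ≠ 0 := by
        rw [hSi]
        exact div_ne_zero e4 e2
      exact_mod_cast this
    have t3 := t1.div t2 hne
    have h5 : (((MvPolynomial.eval q p * MvPolynomial.eval q s') /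
        (MvPolynomial.eval q p' * MvPolynomial.eval q s) : ℚ) : ℚ_[ℓ]) =
        ((R.coeff j : ℚ) : ℚ_[ℓ]) / ((S.coeff i : ℚ) : ℚ_[ℓ]) := by
      rw [hRj, hSi]
      push_cast
      field_simp
    rw [h5]
    refine t3.congr fun k => ?_
    have h6 : ((k.factorial : ℕ) : ℚ_[ℓ]) ≠ 0 := by exact_mod_cast (Nat.factorial_pos k).ne'
    rw [zpow_sub₀ h6, zpow_natCast, zpow_natCast]
    have h7 : ∀ a b c d : ℚ_[ℓ], a / b / (c / d) = a / c / (b / d) :=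
      fun a b c d => div_div_div_comm a b c d
    rw [Rat.cast_div]
    exact h7 _ _ _ _

end Pool.Agent.H88.BS
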