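import Pool.Agent.H88.BS.Seq
import Pool.Agent.H32.BM.Doubling
import Pool.Agent.H56.BN.Mul

/-!
# Signs, valuations and leading digits of terms do not decide whether `B*(d) < 3/4`
-/

set_option autoImplicit false

namespace Pool.Agent.H88.BS

open Filter Pool.Agent.H78.BN Pool.Agent.H88.BR

/-- The value of a term at a rational vector: `x / 0 = 0`, and `ite s t u` is `t` if `s > 0` and `u`
otherwise. -/
noncomputable def valQ {n : ℕ} (x : Fin n → ℚ) : Tm n → ℚ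
  | .var i => x i
  | .const q => q
  | .add s t => valQ x s + valQ x t
  | .sub s t => valQ x s - valQ x t
  | .mul s t => valQ x s * valQ x t
  | .div s t => valQ x s / valQ x t
  | .floor s => ((⌊valQ x s⌋ : ℤ) : ℚ)
  | .ite s t u => if 0 < valQ x s then valQ x t else valQ x u

lemma valQ_cast {n : ℕ} (x : Fin n → ℚ) (t : Tm n) :
    ((valQ x t : ℚ) : ℝ) = t.eval (fun i => (x i : ℝ)) := by
  induction t with
  | var i => rfl
  | const q => rfl
  | add s t hs ht => show ((_ + _ : ℚ) : ℝ) = _ + _; rw [← hs, ← ht]; push_cast; rfl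
  | sub s t hs ht => show ((_ - _ : ℚ) : ℝ) = _ - _; rw [← hs, ← ht]; push_cast; rfl
  | mul s t hs ht => show ((_ * _ : ℚ) : ℝ) = _ * _; rw [← hs, ← ht]; push_cast; rfl
  | div s t hs ht => show ((_ / _ : ℚ) : ℝ) = _ / _; rw [← hs, ← ht]; push_cast; rfl
  | floor s hs =>
    show ((((⌊valQ x s⌋ : ℤ) : ℚ)) : ℝ) = ((⌊s.eval _⌋ : ℤ) : ℝ)
    rw [← hs, Rat.floor_cast]
    push_cast
    rfl
  | ite s t u hs ht hu =>
    show (((if 0 < valQ x s then valQ x t else valQ x u : ℚ)) : ℝ) =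
      (if 0 < s.eval _ then t.eval _ else u.eval _)
    rw [← hs, ← ht, ← hu]
    by_cases h : 0 < valQ x s
    · rw [if_pos h, if_pos (by exact_mod_cast h)]
    · rw [if_neg h, if_neg (by exact_mod_cast h)]

/-- `ℓ`-adic representations of finitely many terms -/
lemma prep_const (F : Finset (Tm 4)) : ∀ U : Set V, IsOpen U → U.Nonempty →
    ∃ U', U' ⊆ U ∧ IsOpen U' ∧ U'.Nonempty ∧ ∀ τ ∈ F, PRep U' (fun v T => τ.eval (dR v T)) := by
  classical
  induction F using Finset.induction_on with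
  | empty =>
    exact fun U hU hne => ⟨U, Set.Subset.refl _, hU, hne, fun p hp => by simp at hp⟩
  | insert τ F _ ih =>
    intro U hU hne
    obtain ⟨U₁, a1, a2, a3, a4⟩ := ih U hU hne
    obtain ⟨U₂, b1, b2, b3, b4⟩ := rep_term τ U₁ a2 a3
    obtain ⟨U₃, c1, c2, c3, c4⟩ := b4.padic b2 b3
    refine ⟨U₃, c1.trans (b1.trans a1), c2, c3, fun τ' hτ' => ?_⟩
    rcases Finset.mem_insert.1 hτ' with rfl | h
    · exact c4
    · exact (a4 τ' h).mono (c1.trans b1)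

lemma eval_lim (ℓ : ℕ) [Fact ℓ.Prime] (p : MP) {q : Fin 3 → ℚ} {q' : ℕ → Fin 3 → ℚ}
    (h : ∀ i, Tendsto (fun j => ((q' j i : ℚ) : ℚ_[ℓ])) atTop (nhds ((q i : ℚ) : ℚ_[ℓ]))) :
    Tendsto (fun j => ((MvPolynomial.eval (q' j) p : ℚ) : ℚ_[ℓ])) atTop
      (nhds ((MvPolynomial.eval q p : ℚ) : ℚ_[ℓ])) := by
  have key : ∀ q : Fin 3 → ℚ, ((MvPolynomial.eval q p : ℚ) : ℚ_[ℓ]) =
      MvPolynomial.eval (fun i => ((q i : ℚ) : ℚ_[ℓ])) (MvPolynomial.map (algebraMap ℚ ℚ_[ℓ]) p) := by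
    intro q
    induction p using MvPolynomial.induction_on with
    | C a => rw [MvPolynomial.eval_C, MvPolynomial.map_C, MvPolynomial.eval_C]; rfl
    | add p q hp hq => rw [map_add, map_add, map_add, ← hp, ← hq]; push_cast; rfl
    | mul_X p i hp =>
      rw [map_mul, map_mul, map_mul, ← hp, MvPolynomial.eval_X, MvPolynomial.map_X,
        MvPolynomial.eval_X]
      push_cast
      rfl
  rw [key]
  have h1 : Tendsto (fun j => fun i => ((q' j i : ℚ) : ℚ_[ℓ])) atTop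
      (nhds (fun i => ((q i : ℚ) : ℚ_[ℓ]))) := tendsto_pi_nhds.2 h
  have h2 := ((MvPolynomial.continuous_eval (MvPolynomial.map (algebraMap ℚ ℚ_[ℓ]) p)).tendsto
    (fun i => ((q i : ℚ) : ℚ_[ℓ]))).comp h1
  exact h2.congr fun j => (key (q' j)).symm

/-- the quotients are close -/
lemma close_ev (ℓ : ℕ) [Fact ℓ.Prime] (m : ℕ) (p s : MP) {q : Fin 3 → ℚ} {q' : ℕ → Fin 3 → ℚ}
    (hp : MvPolynomial.eval q p ≠ 0) (hs : MvPolynomial.eval q s ≠ 0)
    (h : ∀ i, Tendsto (fun j => ((q' j i : ℚ) : ℚ_[ℓ])) atTop (nhds ((q i : ℚ) : ℚ_[ℓ]))) :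
    ∀ᶠ j in atTop, ‖(((MvPolynomial.eval (q' j) p / MvPolynomial.eval (q' j) s : ℚ)) : ℚ_[ℓ]) /
      (((MvPolynomial.eval q p / MvPolynomial.eval q s : ℚ)) : ℚ_[ℓ]) - 1‖ < (ℓ:ℝ) ^ (-(m:ℤ)) := by
  have hsQ : ((MvPolynomial.eval q s : ℚ) : ℚ_[ℓ]) ≠ 0 := by exact_mod_cast hs
  have hpQ : ((MvPolynomial.eval q p : ℚ) : ℚ_[ℓ]) ≠ 0 := by exact_mod_cast hp
  have h1 := (eval_lim ℓ p h).div (eval_lim ℓ s h) hsQ
  have hξ : ((MvPolynomial.eval q p : ℚ) : ℚ_[ℓ]) / ((MvPolynomial.eval q s : ℚ) : ℚ_[ℓ]) ≠ 0 :=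
    div_ne_zero hpQ hsQ
  have h2 := ((h1.div_const (((MvPolynomial.eval q p : ℚ) : ℚ_[ℓ]) /
    ((MvPolynomial.eval q s : ℚ) : ℚ_[ℓ]))).sub_const 1).norm
  rw [div_self hξ, sub_self, norm_zero] at h2
  have hpos : (0:ℝ) < (ℓ:ℝ) ^ (-(m:ℤ)) := by
    have : (0:ℝ) < ℓ := by exact_mod_cast (Fact.out : ℓ.Prime).pos
    positivity
  filter_upwards [h2.eventually_lt_const hpos] with j hj
  push_cast
  exact hj

/-- the values of a term at two sequences of instances are close -/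
lemma close_val (ℓ : ℕ) [Fact ℓ.Prime] (m : ℕ) {ξ ξ' : ℚ} (hξ : ξ ≠ 0) {x x' : ℕ → ℚ} {e : ℤ}
    (h : Tendsto (fun k : ℕ => ((x k : ℚ) : ℚ_[ℓ]) / ((k.factorial : ℕ) : ℚ_[ℓ]) ^ e) atTop
      (nhds ((ξ : ℚ) : ℚ_[ℓ])))
    (h' : Tendsto (fun k : ℕ => ((x' k : ℚ) : ℚ_[ℓ]) / ((k.factorial : ℕ) : ℚ_[ℓ]) ^ e) atTop
      (nhds ((ξ' : ℚ) : ℚ_[ℓ])))
    (hc : ‖((ξ' : ℚ) : ℚ_[ℓ]) / ((ξ : ℚ) : ℚ_[ℓ]) - 1‖ < (ℓ:ℝ) ^ (-(m:ℤ))) :
    ∀ᶠ k : ℕ in atTop, padicNorm ℓ (x k - x' k) ≤ (ℓ:ℚ) ^ (-(m:ℤ)) * padicNorm ℓ (x k) := by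
  have hξQ : ((ξ : ℚ) : ℚ_[ℓ]) ≠ 0 := by exact_mod_cast hξ
  have h1 := ((h'.div h hξQ).sub_const 1).norm
  filter_upwards [h1.eventually_lt_const hc, h.eventually_ne hξQ] with k hk hk0
  have hT : ((k.factorial : ℕ) : ℚ_[ℓ]) ^ e ≠ 0 := by
    apply zpow_ne_zero
    exact_mod_cast (Nat.factorial_pos k).ne'
  have hx : ((x k : ℚ) : ℚ_[ℓ]) ≠ 0 := by
    intro h0
    apply hk0
    rw [h0, zero_div]
  have e1 : ((x' k : ℚ) : ℚ_[ℓ]) / ((k.factorial : ℕ) : ℚ_[ℓ]) ^ e /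
      (((x k : ℚ) : ℚ_[ℓ]) / ((k.factorial : ℕ) : ℚ_[ℓ]) ^ e) = ((x' k : ℚ) : ℚ_[ℓ]) / ((x k : ℚ) : ℚ_[ℓ]) :=
    div_div_div_cancel_right₀ hT _ _
  simp only [Pi.div_apply] at hk
  rw [e1] at hk
  have e2 : ((x k - x' k : ℚ) : ℚ_[ℓ]) = -(((x' k : ℚ) : ℚ_[ℓ]) / ((x k : ℚ) : ℚ_[ℓ]) - 1) * ((x k : ℚ) : ℚ_[ℓ]) := by
    push_cast
    field_simp
    ring
  have e3 : ((padicNorm ℓ (x k - x' k) : ℚ) : ℝ) ≤ (((ℓ:ℚ) ^ (-(m:ℤ)) * padicNorm ℓ (x k) : ℚ) : ℝ) := by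
    rw [← Padic.eq_padicNorm, e2, norm_mul, norm_neg]
    push_cast
    rw [← Padic.eq_padicNorm]
    exact mul_le_mul_of_nonneg_right hk.le (norm_nonneg _)
  exact_mod_cast e3

lemma four (m : ℕ) (P : Finset (MvPolynomial (Tm 4) ℝ)) (F : Finset (Tm 4)) :
    ∃ d d' : Fin 4 → ℕ, (∀ i, 0 < d i) ∧ (∀ i, 0 < d' i) ∧
      Finset.univ.gcd d = 1 ∧ Finset.univ.gcd d' = 1 ∧
      (∀ p ∈ P, SignType.sign (MvPolynomial.eval (fun τ : Tm 4 => τ.eval fun i => (d i : ℝ)) p)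
        = SignType.sign (MvPolynomial.eval (fun τ : Tm 4 => τ.eval fun i => (d' i : ℝ)) p)) ∧
      (∀ τ ∈ F, ∀ ℓ, ℓ.Prime → ℓ ≤ m →
        padicNorm ℓ (valQ (fun i => (d i : ℚ)) τ - valQ (fun i => (d' i : ℚ)) τ) ≤
          (ℓ:ℚ) ^ (-(m:ℤ)) * padicNorm ℓ (valQ (fun i => (d i : ℚ)) τ)) ∧
      Bstar d < 3 / 4 ∧ ¬ Bstar d' < 3 / 4 := by
  obtain ⟨U₁, a1, a2, a3, s, hs⟩ := sign_const P cell isOpen_cell nonempty_cell
  obtain ⟨U, h1, h2, h3, hF⟩ := prep_const F U₁ a2 a3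
  obtain ⟨A, a, b, r, g1, g2, g3, g4, g5, g6, g7⟩ := dense_good h2 h3 (h1.trans a1)
  obtain ⟨g, A', a', b', r', k1, k2, k3, k4, k5⟩ := bad_seq m (r := r) g1 g2 g3 g4
  set q := pt A a b r with hq
  let q' : ℕ → Fin 3 → ℚ := fun j => pt (A' j) (a' j) (b' j) (r' j)
  have hU' : ∀ᶠ j in atTop, toR (q' j) ∈ U := k4.eventually (h2.mem_nhds g7)
  -- the closeness of the parameters
  have hcl : ∀ᶠ j in atTop, ∀ τ ∈ F, ∀ ℓ ∈ Finset.range (m + 1), ∀ hℓ : ℓ.Prime,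
      (∀ q₁ : Fin 3 → ℚ, toR q₁ ∈ U → ∀ᶠ k : ℕ in atTop,
        τ.eval (dR (toR q₁) ((k.factorial : ℕ) : ℝ)) = 0) ∨
      ∃ (p s : MP) (e : ℤ), (∀ q₁ : Fin 3 → ℚ, toR q₁ ∈ U →
        MvPolynomial.eval q₁ p ≠ 0 ∧ MvPolynomial.eval q₁ s ≠ 0 ∧
        ∃ x : ℕ → ℚ, (∀ᶠ k : ℕ in atTop, τ.eval (dR (toR q₁) ((k.factorial : ℕ) : ℝ)) = (x k : ℝ)) ∧
          ∀ (ℓ : ℕ) [Fact ℓ.Prime], Tendsto (fun k : ℕ => ((x k : ℚ) : ℚ_[ℓ]) /
            ((k.factorial : ℕ) : ℚ_[ℓ]) ^ e) atTop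
            (nhds (((MvPolynomial.eval q₁ p / MvPolynomial.eval q₁ s : ℚ)) : ℚ_[ℓ]))) ∧
        ‖(@Rat.cast (@Padic ℓ ⟨hℓ⟩) _ (MvPolynomial.eval (q' j) p / MvPolynomial.eval (q' j) s)) /
          (@Rat.cast (@Padic ℓ ⟨hℓ⟩) _ (MvPolynomial.eval q p / MvPolynomial.eval q s)) - 1‖
            < (ℓ:ℝ) ^ (-(m:ℤ)) := by
    refine (Filter.eventually_all_finset F).2 fun τ hτ => ?_
    refine (Filter.eventually_all_finset _).2 fun ℓ hℓm => ?_
    by_cases hℓ : ℓ.Prime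
    · rcases hF τ hτ with h0 | ⟨p, s, e, hps⟩
      · exact Filter.Eventually.of_forall fun j _ => Or.inl h0
      · haveI : Fact ℓ.Prime := ⟨hℓ⟩
        have hle : ℓ ≤ m := by
          have := Finset.mem_range.1 hℓm
          omega
        filter_upwards [close_ev ℓ m p s (hps q g7).1 (hps q g7).2.1 (k5 ℓ hle)] with j hj
        intro _
        exact Or.inr ⟨p, s, e, hps, hj⟩
    · exact Filter.Eventually.of_forall fun j h => absurd h hℓ
  obtain ⟨j, hj1, hj2⟩ := (hU'.and hcl).exists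
  obtain ⟨b1, b2, b3, b4, b5, b6, b7⟩ := k3 j
  -- the signs
  have hP : ∀ᶠ k : ℕ in atTop, ∀ p ∈ P, SignType.sign (MvPolynomial.eval
      (fun τ : Tm 4 => τ.eval (dR (toR q) ((k.factorial : ℕ) : ℝ))) p) = s p :=
    (Filter.eventually_all_finset P).2 fun p hp => hs p hp _ (h1 g7)
  have hP' : ∀ᶠ k : ℕ in atTop, ∀ p ∈ P, SignType.sign (MvPolynomial.eval
      (fun τ : Tm 4 => τ.eval (dR (toR (q' j)) ((k.factorial : ℕ) : ℝ))) p) = s p :=
    (Filter.eventually_all_finset P).2 fun p hp => hs p hp _ (h1 hj1)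
  -- the values of the terms
  have hV : ∀ᶠ k : ℕ in atTop, ∀ τ ∈ F, ∀ ℓ ∈ Finset.range (m + 1), ℓ.Prime → ∀ y y' : ℚ,
      (y : ℝ) = τ.eval (dR (toR q) ((k.factorial : ℕ) : ℝ)) →
      (y' : ℝ) = τ.eval (dR (toR (q' j)) ((k.factorial : ℕ) : ℝ)) →
      padicNorm ℓ (y - y') ≤ (ℓ:ℚ) ^ (-(m:ℤ)) * padicNorm ℓ y := by
    refine (Filter.eventually_all_finset F).2 fun τ hτ => ?_
    refine (Filter.eventually_all_finset _).2 fun ℓ hℓm => ?_
    by_cases hℓ : ℓ.Prime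
    · haveI : Fact ℓ.Prime := ⟨hℓ⟩
      rcases hj2 τ hτ ℓ hℓm hℓ with h0 | ⟨p, s, e, hps, hc⟩
      · filter_upwards [h0 q g7, h0 (q' j) hj1] with k e1 e2
        intro _ y y' hy hy'
        rw [e1] at hy
        rw [e2] at hy'
        have z1 : y = 0 := by exact_mod_cast hy
        have z2 : y' = 0 := by exact_mod_cast hy'
        rw [z1, z2, sub_zero, padicNorm.zero, mul_zero]
      · obtain ⟨n1, n2, x, hx, hxl⟩ := hps q g7
        obtain ⟨n1', n2', x', hx', hxl'⟩ := hps (q' j) hj1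
        have hcv := close_val ℓ m (div_ne_zero n1 n2) (hxl ℓ) (hxl' ℓ) hc
        filter_upwards [hx, hx', hcv] with k e1 e2 e3
        intro _ y y' hy hy'
        rw [e1] at hy
        rw [e2] at hy'
        have z1 : y = x k := by exact_mod_cast hy
        have z2 : y' = x' k := by exact_mod_cast hy'
        rw [z1, z2]
        exact e3
    · exact Filter.Eventually.of_forall fun k h => absurd h hℓ
  obtain ⟨k, ⟨d, c1, c2, c3, c4⟩, ⟨d', e1, e2, e3, e4⟩, hk, hk', hv⟩ :=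
    ((good_ev g1 g2 g3 g4 g5 g6).and ((bad_ev (r := r' j) b1 b2 b3 b4 k1 k2 b5 b6 b7).and
      (hP.and (hP'.and hV)))).exists
  refine ⟨d, d', c1, e1, c2, e2, fun p hp => ?_, fun τ hτ ℓ hℓ hℓm => ?_, c4, e4⟩
  · rw [c3, e3, hk p hp, hk' p hp]
  · refine hv τ hτ ℓ (Finset.mem_range.2 (by omega)) hℓ _ _ ?_ ?_
    · rw [valQ_cast, ← c3]
      have h4 : (fun i => (((fun i => (d i : ℚ)) i : ℚ) : ℝ)) = fun i => (d i : ℝ) := by
        funext i
        exact Rat.cast_natCast _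
      rw [h4]
    · rw [valQ_cast, ← e3]
      have h4 : (fun i => (((fun i => (d' i : ℚ)) i : ℚ) : ℝ)) = fun i => (d' i : ℝ) := by
        funext i
        exact Rat.cast_natCast _
      rw [h4]

lemma valQ_subst {n m : ℕ} (f : Fin n → Tm m) (x : Fin m → ℚ) (t : Tm n) :
    valQ x (t.subst f) = valQ (fun i => valQ x (f i)) t := by
  have h := valQ_cast x (t.subst f)
  rw [Tm.eval_subst] at h
  have h2 := valQ_cast (fun i => valQ x (f i)) t
  have h3 : (fun i => (((fun i => valQ x (f i)) i : ℚ) : ℝ)) = fun i => (f i).eval fun i => (x i : ℝ) := by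
    funext i
    exact valQ_cast x (f i)
  rw [h3] at h2
  exact_mod_cast h.trans h2.symm

/-- **Main theorem.** Let `n ≥ 4`. The signs of finitely many real polynomials in terms and, for
finitely many terms `τ` and the primes `ℓ ≤ m`, the valuation `v` and the class of `τ(d)` modulo
`ℓ ^ (v + m)` do not decide whether `B*(d) < 3/4`, even for instances with `gcd = 1`. The terms are built
from the demands and rational constants with the four operations, the floor and case distinctions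
according to a sign. -/
theorem no_terms (n : ℕ) (hn : 4 ≤ n) (m : ℕ) (P : Finset (MvPolynomial (Tm n) ℝ))
    (F : Finset (Tm n)) :
    ∃ d d' : Fin n → ℕ, (∀ i, 0 < d i) ∧ (∀ i, 0 < d' i) ∧
      Finset.univ.gcd d = 1 ∧ Finset.univ.gcd d' = 1 ∧
      (∀ p ∈ P, SignType.sign (MvPolynomial.eval (fun τ : Tm n => τ.eval fun i => (d i : ℝ)) p)
        = SignType.sign (MvPolynomial.eval (fun τ : Tm n => τ.eval fun i => (d' i : ℝ)) p)) ∧
      (∀ τ ∈ F, ∀ ℓ, ℓ.Prime → ℓ ≤ m →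
        padicNorm ℓ (valQ (fun i => (d i : ℚ)) τ - valQ (fun i => (d' i : ℚ)) τ) ≤
          (ℓ:ℚ) ^ (-(m:ℤ)) * padicNorm ℓ (valQ (fun i => (d i : ℚ)) τ)) ∧
      Bstar d < 3 / 4 ∧ ¬ Bstar d' < 3 / 4 := by
  classical
  induction n, hn using Nat.le_induction with
  | base => exact four m P F
  | succ n hn ih =>
    obtain ⟨σ, hσ⟩ := exists_sum n
    let f : Fin (n + 1) → Tm n := Fin.cons σ fun i => Tm.var i
    obtain ⟨d, d', c1, c2, c3, c4, c5, c5', c6, c7⟩ :=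
      ih (P.image (MvPolynomial.rename (Tm.subst f))) (F.image (Tm.subst f))
    have hpos : ∀ e : Fin n → ℕ, (∀ i, 0 < e i) → 0 < total e := by
      intro e he
      unfold total
      exact Finset.sum_pos (fun i _ => he i) ⟨⟨0, by omega⟩, Finset.mem_univ _⟩
    have hgcd : ∀ e : Fin n → ℕ, Finset.univ.gcd e = 1 →
        Finset.univ.gcd (Fin.cons (total e) e : Fin (n + 1) → ℕ) = 1 := by
      intro e he
      have h1 : Finset.univ.gcd (Fin.cons (total e) e : Fin (n + 1) → ℕ) ∣ Finset.univ.gcd e := by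
        rw [Finset.dvd_gcd_iff]
        intro i _
        have h2 := Finset.gcd_dvd (f := (Fin.cons (total e) e : Fin (n + 1) → ℕ))
          (Finset.mem_univ (Fin.succ i))
        rwa [Fin.cons_succ] at h2
      rw [he] at h1
      exact Nat.dvd_one.1 h1
    have hpos' : ∀ e : Fin n → ℕ, (∀ i, 0 < e i) →
        ∀ i, 0 < (Fin.cons (total e) e : Fin (n + 1) → ℕ) i := by
      intro e he i
      refine Fin.cases ?_ (fun j => ?_) i
      · rw [Fin.cons_zero]; exact hpos e he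
      · rw [Fin.cons_succ]; exact he j
    have hvec : ∀ e : Fin n → ℕ, (fun i => (f i).eval fun i => (e i : ℝ)) =
        fun i => ((Fin.cons (total e) e : Fin (n + 1) → ℕ) i : ℝ) := by
      intro e
      funext i
      refine Fin.cases ?_ (fun j => ?_) i
      · show σ.eval _ = _
        rw [hσ, Fin.cons_zero]
        unfold total
        push_cast
        rfl
      · show (Tm.var j).eval _ = _
        rw [Fin.cons_succ]
        rfl
    have heval : ∀ (e : Fin n → ℕ) (p : MvPolynomial (Tm (n + 1)) ℝ),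
        MvPolynomial.eval (fun τ : Tm n => τ.eval fun i => (e i : ℝ))
          (MvPolynomial.rename (Tm.subst f) p) =
        MvPolynomial.eval (fun τ : Tm (n + 1) =>
          τ.eval fun i => ((Fin.cons (total e) e : Fin (n + 1) → ℕ) i : ℝ)) p := by
      intro e p
      rw [MvPolynomial.eval_rename]
      congr 2
      funext τ
      show (τ.subst f).eval _ = _
      rw [Tm.eval_subst, hvec]
    have hval : ∀ (e : Fin n → ℕ) (τ : Tm (n + 1)), valQ (fun i => (e i : ℚ)) (τ.subst f) =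
        valQ (fun i => ((Fin.cons (total e) e : Fin (n + 1) → ℕ) i : ℚ)) τ := by
      intro e τ
      have h1 := valQ_cast (fun i => (e i : ℚ)) (τ.subst f)
      have h2 := valQ_cast (fun i => ((Fin.cons (total e) e : Fin (n + 1) → ℕ) i : ℚ)) τ
      rw [Tm.eval_subst] at h1
      have h3 : (fun i => (f i).eval fun i => (((fun i => (e i : ℚ)) i : ℚ) : ℝ)) =
          fun i => ((((fun i => ((Fin.cons (total e) e : Fin (n + 1) → ℕ) i : ℚ)) i : ℚ)) : ℝ) := by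
        have h4 := hvec e
        push_cast
        exact h4
      rw [h3] at h1
      exact_mod_cast h1.trans h2.symm
    refine ⟨Fin.cons (total d) d, Fin.cons (total d') d', hpos' d c1, hpos' d' c2, hgcd d c3,
      hgcd d' c4, fun p hp => ?_, fun τ hτ ℓ hℓ hℓm => ?_, ?_, ?_⟩
    · rw [← heval, ← heval]
      exact c5 _ (Finset.mem_image_of_mem _ hp)
    · have h1 := c5' _ (Finset.mem_image_of_mem (Tm.subst f) hτ) ℓ hℓ hℓm
      rw [hval, hval] at h1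
      exact h1
    · exact (Pool.Agent.H32.BM.doubling d (hpos d c1)).2 c6
    · exact fun h => c7 ((Pool.Agent.H32.BM.doubling d' (hpos d' c2)).1 h)

end Pool.Agent.H88.BS
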