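import Pool.Agent.H88.BS.Rep

/-!
# Representable functions are closed under the floor (after shrinking the set)
-/

set_option autoImplicit false

namespace Pool.Agent.H88.BS

open Polynomial Filter

variable {b : Prop}

/-- the inverse of a nice function without zeros -/
noncomputable def ninv {U : Set V} (f : nice b U) (h : ∀ v ∈ U, f.1 v ≠ 0) : nice b U :=
  ⟨fun v => (f.1 v)⁻¹, f.2.1.inv₀ h, fun hb => by
    obtain ⟨p, q, hpq⟩ := f.2.2 hb
    refine ⟨q, p, fun v hv => ?_⟩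
    have h1 := h v hv
    rw [(hpq v hv).2] at h1
    refine ⟨fun h0 => h1 (by rw [h0, zero_div]), ?_⟩
    show (f.1 v)⁻¹ = _
    rw [(hpq v hv).2, inv_div]⟩

lemma ev_ninv {U : Set V} (f : nice b U) (h : ∀ v ∈ U, f.1 v ≠ 0) (v : V) :
    ev v (ninv f h) = (f.1 v)⁻¹ := rfl

/-- division with remainder -/
lemma div_rem {U : Set V} (P Q : (nice b U)[X]) (m : ℕ)
    (hQ : ∀ v ∈ U, (Q.map (ev v)).natDegree = m ∧ (Q.coeff m).1 v ≠ 0) :
    ∃ S R Q₁ : (nice b U)[X], ∀ v ∈ U, Q₁.map (ev v) ≠ 0 ∧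
      (R.map (ev v)).degree < (Q₁.map (ev v)).degree ∧
      ∀ T, pv Q₁ v T ≠ 0 → pv P v T / pv Q v T = pv S v T + pv R v T / pv Q₁ v T := by
  let iq : nice b U := ninv (Q.coeff m) fun v hv => (hQ v hv).2
  let L : (nice b U)[X] := ∑ i : Fin m, C (iq * Q.coeff (i : ℕ)) * X ^ (i : ℕ)
  let Q₁ : (nice b U)[X] := X ^ m + L
  have hmon : Q₁.Monic := Polynomial.monic_X_pow_add (Polynomial.degree_sum_fin_lt _)
  have hQ₁ : ∀ v ∈ U, Q₁.map (ev v) = C ((Q.coeff m).1 v)⁻¹ * Q.map (ev v) := by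
    intro v hv
    have e1 : Q.map (ev v) = ∑ i ∈ Finset.range (m + 1), C ((Q.map (ev v)).coeff i) * X ^ i := by
      conv_lhs => rw [Polynomial.as_sum_range_C_mul_X_pow (Q.map (ev v)), (hQ v hv).1]
    have e2 : Q₁.map (ev v) = X ^ m + ∑ i : Fin m, C (((Q.coeff m).1 v)⁻¹ * (Q.coeff (i : ℕ)).1 v) * X ^ (i : ℕ) := by
      show (X ^ m + L).map (ev v) = _
      rw [Polynomial.map_add, Polynomial.map_pow, Polynomial.map_X, Polynomial.map_sum]
      congr 1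
      refine Finset.sum_congr rfl fun i _ => ?_
      rw [Polynomial.map_mul, Polynomial.map_pow, Polynomial.map_X, Polynomial.map_C, map_mul,
        ev_ninv, ev_apply]
    rw [e2, e1, Finset.sum_range_succ, mul_add, Finset.mul_sum, add_comm]
    congr 1
    · rw [Finset.sum_range]
      refine Finset.sum_congr rfl fun i _ => ?_
      rw [Polynomial.coeff_map, ev_apply, ← mul_assoc, ← Polynomial.C_mul]
    · rw [Polynomial.coeff_map, ev_apply, ← mul_assoc, ← Polynomial.C_mul,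
        inv_mul_cancel₀ (hQ v hv).2, Polynomial.C_1, one_mul]
  let P₁ : (nice b U)[X] := C iq * P
  refine ⟨P₁ /ₘ Q₁, P₁ %ₘ Q₁, Q₁, fun v hv => ?_⟩
  have hmv : (Q₁.map (ev v)).Monic := hmon.map _
  refine ⟨hmv.ne_zero, ?_, fun T hT => ?_⟩
  · rw [hmon.degree_map]
    refine lt_of_le_of_lt Polynomial.degree_map_le ?_
    have : Nontrivial (nice b U) := by
      refine ⟨⟨0, 1, fun h => ?_⟩⟩
      have := congrArg (fun f : nice b U => f.1 (fun _ => 0)) h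
      exact zero_ne_one this
    exact Polynomial.degree_modByMonic_lt _ hmon
  · have e1 : pv P₁ v T = ((Q.coeff m).1 v)⁻¹ * pv P v T := by
      show pv (C iq * P) v T = _
      rw [pv_mul, pv_C]
      rfl
    have e2 : pv Q₁ v T = ((Q.coeff m).1 v)⁻¹ * pv Q v T := by
      unfold pv
      rw [hQ₁ v hv, Polynomial.eval_mul, Polynomial.eval_C]
    have e3 : pv P₁ v T = pv (P₁ %ₘ Q₁) v T + pv Q₁ v T * pv (P₁ /ₘ Q₁) v T := by
      rw [← pv_mul, ← pv_add, Polynomial.modByMonic_add_div]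
    have hc : ((Q.coeff m).1 v)⁻¹ ≠ 0 := inv_ne_zero (hQ v hv).2
    have e4 : pv P v T / pv Q v T = pv P₁ v T / pv Q₁ v T := by
      rw [e1, e2, mul_div_mul_left _ _ hc]
    rw [e4, e3, add_div, mul_comm (pv Q₁ v T), mul_div_assoc, div_self hT, mul_one, add_comm]

/-- the floor of the sum of a nice function and of a function tending to zero is constant (after
shrinking) -/
lemma floor_const {U : Set V} (hU : IsOpen U) (hne : U.Nonempty) (s : nice b U) (R Q₁ : (nice b U)[X])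
    (hQ₁ : ∀ v ∈ U, Q₁.map (ev v) ≠ 0) (hdeg : ∀ v ∈ U, (R.map (ev v)).degree < (Q₁.map (ev v)).degree) :
    ∃ U', U' ⊆ U ∧ IsOpen U' ∧ U'.Nonempty ∧ ∃ c : ℤ, ∀ v ∈ U', ∀ᶠ k : ℕ in atTop,
      ⌊s.1 v + pv R v ((k.factorial : ℕ) : ℝ) / pv Q₁ v ((k.factorial : ℕ) : ℝ)⌋ = c := by
  have htend : ∀ v ∈ U, Tendsto (fun k : ℕ => pv R v ((k.factorial : ℕ) : ℝ) /
      pv Q₁ v ((k.factorial : ℕ) : ℝ)) atTop (nhds 0) := by
    intro v hv
    exact (Polynomial.div_tendsto_atTop_zero_of_degree_lt _ _ (hdeg v hv)).comp fact_tendsto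
  have hcont : ContinuousOn s.1 U := s.2.1
  by_cases hint : ∃ v ∈ U, ∀ z : ℤ, s.1 v ≠ z
  · obtain ⟨v₁, hv₁, hz⟩ := hint
    set c := ⌊s.1 v₁⌋ with hc
    have h1 : (c:ℝ) < s.1 v₁ := lt_of_le_of_ne (Int.floor_le _) (fun h => hz c h.symm)
    have h2 : s.1 v₁ < c + 1 := Int.lt_floor_add_one _
    refine ⟨U ∩ s.1 ⁻¹' (Set.Ioo (c:ℝ) (c + 1)), Set.inter_subset_left,
      hcont.isOpen_inter_preimage hU isOpen_Ioo, ⟨v₁, hv₁, h1, h2⟩, c, ?_⟩
    rintro v ⟨hv, hv1, hv2⟩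
    have h3 := (htend v hv).const_add (s.1 v)
    rw [add_zero] at h3
    filter_upwards [h3.eventually (isOpen_Ioo.mem_nhds (⟨hv1, hv2⟩ : s.1 v ∈ Set.Ioo (c:ℝ) (c+1)))]
      with k hk
    rw [Int.floor_eq_iff]
    exact ⟨hk.1.le, hk.2⟩
  · push Not at hint
    obtain ⟨v₁, hv₁⟩ := hne
    obtain ⟨c, hc⟩ := hint v₁ hv₁
    set U₂ := U ∩ s.1 ⁻¹' (Set.Ioo ((c:ℝ) - 1) (c + 1)) with hU₂
    have h12 : U₂ ⊆ U := Set.inter_subset_left
    have hopen : IsOpen U₂ := hcont.isOpen_inter_preimage hU isOpen_Ioo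
    have hne₂ : U₂.Nonempty := ⟨v₁, hv₁, by
      show s.1 v₁ ∈ Set.Ioo ((c:ℝ) - 1) (c + 1)
      rw [hc]
      exact ⟨by linarith, by linarith⟩⟩
    have hsc : ∀ v ∈ U₂, s.1 v = c := by
      rintro v ⟨hv, hv1, hv2⟩
      obtain ⟨z, hz⟩ := hint v hv
      rw [hz] at hv1 hv2 ⊢
      have h3 : c - 1 < z := by exact_mod_cast hv1
      have h4 : z < c + 1 := by exact_mod_cast hv2
      have h5 : z = c := by omega
      rw [h5]
    obtain ⟨U₃, a1, a2, a3, a4⟩ := sign_poly hopen hne₂ ((R * Q₁).map (res h12))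
    refine ⟨U₃, a1.trans h12, a2, a3, ?_⟩
    have hsmall : ∀ v ∈ U₃, ∀ᶠ k : ℕ in atTop,
        pv R v ((k.factorial : ℕ) : ℝ) / pv Q₁ v ((k.factorial : ℕ) : ℝ) ∈ Set.Ioo (-1:ℝ) 1 := by
      intro v hv
      exact (htend v (h12 (a1 hv))).eventually (isOpen_Ioo.mem_nhds (by constructor <;> norm_num))
    have hden : ∀ v ∈ U₃, ∀ᶠ k : ℕ in atTop, pv Q₁ v ((k.factorial : ℕ) : ℝ) ≠ 0 := by
      intro v hv
      exact ev_ne (hQ₁ v (h12 (a1 hv)))
    have key : ∀ x y : ℝ, y ≠ 0 → x / y = x * y / (y * y) := by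
      intro x y hy
      field_simp
    rcases a4 with a4 | a4 | a4
    · refine ⟨c, fun v hv => ?_⟩
      filter_upwards [hden v hv] with k h2
      have h3 := a4 v hv ((k.factorial : ℕ) : ℝ)
      rw [pv_res, pv_mul] at h3
      rw [key _ _ h2, h3, zero_div, add_zero, hsc v (a1 hv), Int.floor_intCast]
    · refine ⟨c, fun v hv => ?_⟩
      filter_upwards [hden v hv, hsmall v hv, a4 v hv] with k h2 h3 h4
      rw [pv_res, pv_mul] at h4
      have h5 : 0 < pv R v ((k.factorial : ℕ) : ℝ) / pv Q₁ v ((k.factorial : ℕ) : ℝ) := by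
        rw [key _ _ h2]
        exact div_pos h4 (mul_self_pos.2 h2)
      rw [Int.floor_eq_iff, hsc v (a1 hv)]
      exact ⟨by linarith, by linarith [h3.2]⟩
    · refine ⟨c - 1, fun v hv => ?_⟩
      filter_upwards [hden v hv, hsmall v hv, a4 v hv] with k h2 h3 h4
      rw [pv_res, pv_mul] at h4
      have h5 : pv R v ((k.factorial : ℕ) : ℝ) / pv Q₁ v ((k.factorial : ℕ) : ℝ) < 0 := by
        rw [key _ _ h2]
        exact div_neg_of_neg_of_pos h4 (mul_self_pos.2 h2)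
      rw [Int.floor_eq_iff, hsc v (a1 hv)]
      push_cast
      exact ⟨by linarith [h3.1], by linarith⟩

/-- **The floor of a representable function is representable.** -/
lemma Rep.floor {U : Set V} (hU : IsOpen U) (hne : U.Nonempty) {g : V → ℝ → ℝ} (hg : Rep True U g) :
    ∃ U', U' ⊆ U ∧ IsOpen U' ∧ U'.Nonempty ∧ Rep True U' (fun v T => ((⌊g v T⌋ : ℤ) : ℝ)) := by
  obtain ⟨P, Q, hQ, hE⟩ := hg
  obtain ⟨U₁, h1, h2, h3, h4⟩ := normalise hU hne Q
  have hm : ∃ m, ∀ v ∈ U₁, (Q.map (ev v)).natDegree = m ∧ (Q.coeff m).1 v ≠ 0 := by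
    rcases h4 with h4 | ⟨m, h4⟩ | ⟨m, h4⟩
    · obtain ⟨v, hv⟩ := h3
      exact absurd (h4 v hv) (hQ v (h1 hv))
    · exact ⟨m, fun v hv => ⟨(h4 v hv).1, (h4 v hv).2.ne'⟩⟩
    · exact ⟨m, fun v hv => ⟨(h4 v hv).1, (h4 v hv).2.ne⟩⟩
  obtain ⟨m, hm⟩ := hm
  obtain ⟨S, R, Q₁, hdiv⟩ := div_rem (P.map (res h1)) (Q.map (res h1)) m (by
    intro v hv
    rw [map_res]
    refine ⟨(hm v hv).1, ?_⟩
    have e1 : (((Q.map (res h1)).coeff m) : nice True U₁).1 v = (Q.coeff m).1 v := by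
      rw [Polynomial.coeff_map]
      rfl
    rw [e1]
    exact (hm v hv).2)
  obtain ⟨U₂, b1, b2, b3, c, hc⟩ := floor_const h2 h3 (S.coeff 0) R Q₁
    (fun v hv => (hdiv v hv).1) (fun v hv => (hdiv v hv).2.1)
  refine ⟨U₂, b1.trans h1, b2, b3, ?_⟩
  refine ((rep_poly (S - C (S.coeff 0) + C (cst True U₁ (c : ℚ)))).mono b1).congr fun q hq => ?_
  have hq1 : toR q ∈ U₁ := b1 hq
  have hrat : ∀ j, ∃ r : ℚ, (S.map (ev (toR q))).coeff j = r := by
    intro j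
    rw [Polynomial.coeff_map, ev_apply]
    exact ((S.coeff j).2.2 trivial).value hq1
  filter_upwards [hE q (h1 hq1), int_val_real hrat, hc _ hq, ev_ne (hdiv _ hq1).1]
    with k e1 ⟨z, e2⟩ e3 e4
  have e5 := (hdiv _ hq1).2.2 ((k.factorial : ℕ) : ℝ) e4
  rw [pv_res, pv_res] at e5
  have e6 : pv S (toR q) ((k.factorial : ℕ) : ℝ) = (S.coeff 0).1 (toR q) + z := by
    rw [Polynomial.coeff_map, ev_apply] at e2
    exact e2
  show ((⌊g (toR q) ((k.factorial : ℕ) : ℝ)⌋ : ℤ) : ℝ) = pv (S - C (S.coeff 0) + C (cst True U₁ (c : ℚ))) _ _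
  rw [pv_add, pv_sub, pv_C, pv_C, e1, e5, e6]
  have e7 : (S.coeff 0).1 (toR q) + (z:ℝ) + pv R (toR q) ((k.factorial : ℕ) : ℝ) /
      pv Q₁ (toR q) ((k.factorial : ℕ) : ℝ) = ((S.coeff 0).1 (toR q) + pv R (toR q) ((k.factorial : ℕ) : ℝ) /
      pv Q₁ (toR q) ((k.factorial : ℕ) : ℝ)) + (z:ℝ) := by ring
  rw [e7, Int.floor_add_intCast, e3]
  have e8 : (cst True U₁ (c : ℚ)).1 (toR q) = (c : ℝ) := by
    show (((c : ℚ) : ℚ) : ℝ) = c
    push_cast
    rfl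
  rw [e8]
  push_cast
  ring

end Pool.Agent.H88.BS
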