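import Mathlib

/-!
# Polynomials whose coefficients are rational functions of a parameter

`nice b U` : the functions on `ℝ³` which are continuous on `U` and, if `b`, equal on `U` to a quotient of
two polynomials with rational coefficients. `Rep b U g` (file `Rep`): for every rational `v ∈ U` the values
`g v (k!)`, `k` large, are the values of a quotient of two polynomials in `k!` whose coefficients are nice
functions of `v`.
-/

set_option autoImplicit false

namespace Pool.Agent.H88.BS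

open Polynomial Filter

/-- the space of parameters -/
abbrev V : Type := Fin 3 → ℝ

/-- a rational point -/
def toR (q : Fin 3 → ℚ) : V := fun i => (q i : ℝ)

/-- polynomials in the parameters with rational coefficients -/
abbrev MP : Type := MvPolynomial (Fin 3) ℚ

/-- the value of a polynomial at a real point -/
noncomputable def mv (p : MP) (v : V) : ℝ := MvPolynomial.aeval v p

lemma mv_mul (p q : MP) (v : V) : mv (p * q) v = mv p v * mv q v := by unfold mv; rw [map_mul]

lemma mv_add (p q : MP) (v : V) : mv (p + q) v = mv p v + mv q v := by unfold mv; rw [map_add]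

lemma mv_neg (p : MP) (v : V) : mv (-p) v = - mv p v := by unfold mv; rw [map_neg]

lemma mv_C (r : ℚ) (v : V) : mv (MvPolynomial.C r) v = (r : ℝ) := by
  unfold mv; rw [MvPolynomial.aeval_C]; rfl

lemma mv_X (i : Fin 3) (v : V) : mv (MvPolynomial.X i) v = v i := by
  unfold mv; rw [MvPolynomial.aeval_X]

lemma mv_toR (p : MP) (q : Fin 3 → ℚ) : mv p (toR q) = ((MvPolynomial.eval q p : ℚ) : ℝ) := by
  induction p using MvPolynomial.induction_on with
  | C a => rw [mv_C, MvPolynomial.eval_C]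
  | add p q hp hq => rw [mv_add, hp, hq, map_add]; push_cast; rfl
  | mul_X p i hp => rw [mv_mul, hp, mv_X, map_mul, MvPolynomial.eval_X]; push_cast; rfl

/-- equal on `U` to a quotient of polynomials -/
def IsRat (U : Set V) (f : V → ℝ) : Prop :=
  ∃ p q : MP, ∀ v ∈ U, mv q v ≠ 0 ∧ f v = mv p v / mv q v

lemma IsRat.value {U : Set V} {f : V → ℝ} (hf : IsRat U f) {q : Fin 3 → ℚ} (hq : toR q ∈ U) :
    ∃ r : ℚ, f (toR q) = r := by
  obtain ⟨p, s, h⟩ := hf
  exact ⟨MvPolynomial.eval q p / MvPolynomial.eval q s, by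
    rw [(h _ hq).2, mv_toR, mv_toR]; push_cast; rfl⟩

/-- the functions which are continuous on `U` and, if `b`, quotients of polynomials there -/
def nice (b : Prop) (U : Set V) : Subring (V → ℝ) where
  carrier := {f | ContinuousOn f U ∧ (b → IsRat U f)}
  mul_mem' := by
    rintro f g ⟨hf, hf'⟩ ⟨hg, hg'⟩
    refine ⟨hf.mul hg, fun hb => ?_⟩
    obtain ⟨p, q, h⟩ := hf' hb
    obtain ⟨p', q', h'⟩ := hg' hb
    refine ⟨p * p', q * q', fun v hv => ?_⟩
    rw [mv_mul, mv_mul, Pi.mul_apply, (h v hv).2, (h' v hv).2]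
    exact ⟨mul_ne_zero (h v hv).1 (h' v hv).1, div_mul_div_comm _ _ _ _⟩
  one_mem' := ⟨continuousOn_const, fun _ => ⟨1, 1, fun v _ => by
    have h : mv (1 : MP) v = 1 := by unfold mv; rw [map_one]
    rw [h]
    exact ⟨one_ne_zero, by simp⟩⟩⟩
  add_mem' := by
    rintro f g ⟨hf, hf'⟩ ⟨hg, hg'⟩
    refine ⟨hf.add hg, fun hb => ?_⟩
    obtain ⟨p, q, h⟩ := hf' hb
    obtain ⟨p', q', h'⟩ := hg' hb
    refine ⟨p * q' + q * p', q * q', fun v hv => ?_⟩
    rw [mv_add, mv_mul, mv_mul, mv_mul, Pi.add_apply, (h v hv).2, (h' v hv).2]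
    exact ⟨mul_ne_zero (h v hv).1 (h' v hv).1, div_add_div _ _ (h v hv).1 (h' v hv).1⟩
  zero_mem' := ⟨continuousOn_const, fun _ => ⟨0, 1, fun v _ => by
    have h : mv (1 : MP) v = 1 := by unfold mv; rw [map_one]
    have h0 : mv (0 : MP) v = 0 := by unfold mv; rw [map_zero]
    rw [h, h0]
    exact ⟨one_ne_zero, by simp⟩⟩⟩
  neg_mem' := by
    rintro f ⟨hf, hf'⟩
    refine ⟨hf.neg, fun hb => ?_⟩
    obtain ⟨p, q, h⟩ := hf' hb
    refine ⟨-p, q, fun v hv => ?_⟩
    rw [mv_neg, Pi.neg_apply, (h v hv).2]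
    exact ⟨(h v hv).1, by ring⟩

variable {b : Prop}

lemma nice_mono {U U' : Set V} (h : U' ⊆ U) : nice b U ≤ nice b U' := by
  rintro f ⟨hf, hf'⟩
  refine ⟨hf.mono h, fun hb => ?_⟩
  obtain ⟨p, q, h'⟩ := hf' hb
  exact ⟨p, q, fun v hv => h' v (h hv)⟩

/-- the value of a nice function -/
def ev {U : Set V} (v : V) : nice b U →+* ℝ := (Pi.evalRingHom (fun _ => ℝ) v).comp (nice b U).subtype

lemma ev_apply {U : Set V} (v : V) (f : nice b U) : ev v f = f.1 v := rfl

/-- restriction to a smaller set -/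
def res {U U' : Set V} (h : U' ⊆ U) : nice b U →+* nice b U' := Subring.inclusion (nice_mono h)

lemma ev_res {U U' : Set V} (h : U' ⊆ U) (v : V) : (ev v).comp (res h) = (ev v : nice b U →+* ℝ) := rfl

lemma map_res {U U' : Set V} (h : U' ⊆ U) (v : V) (P : (nice b U)[X]) :
    (P.map (res h)).map (ev v) = P.map (ev v) := by
  rw [Polynomial.map_map, ev_res]

lemma mv_one (v : V) : mv (1 : MP) v = 1 := by unfold mv; rw [map_one]

/-- a rational constant -/
noncomputable def cst (b : Prop) (U : Set V) (r : ℚ) : nice b U :=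
  ⟨fun _ => (r : ℝ), continuousOn_const, fun _ => ⟨MvPolynomial.C r, 1, fun v _ => by
    rw [mv_one, mv_C]; exact ⟨one_ne_zero, (div_one _).symm⟩⟩⟩

/-- a real constant -/
noncomputable def rcst (U : Set V) (r : ℝ) : nice False U :=
  ⟨fun _ => r, continuousOn_const, fun h => h.elim⟩

/-- the coordinates -/
noncomputable def crd (b : Prop) (U : Set V) (i : Fin 3) : nice b U :=
  ⟨fun v => v i, (continuous_apply i).continuousOn, fun _ => ⟨MvPolynomial.X i, 1, fun v _ => by
    rw [mv_one, mv_X]; exact ⟨one_ne_zero, (div_one _).symm⟩⟩⟩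

/-- nice functions without the rationality -/
def fgt (U : Set V) : nice True U →+* nice False U :=
  Subring.inclusion (by
    rintro f ⟨hf, _⟩
    exact ⟨hf, fun h => h.elim⟩)

lemma map_fgt {U : Set V} (v : V) (P : (nice True U)[X]) :
    (P.map (fgt U)).map (ev v) = P.map (ev v) := by
  rw [Polynomial.map_map]
  rfl

/-! ### Real polynomials -/

lemma fact_tendsto : Tendsto (fun k : ℕ => ((k.factorial : ℕ) : ℝ)) atTop atTop := by
  apply tendsto_natCast_atTop_atTop.comp
  exact tendsto_atTop_mono Nat.self_le_factorial tendsto_id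

lemma ev_pos {p : ℝ[X]} (hp : 0 < p.leadingCoeff) : ∀ᶠ k : ℕ in atTop, 0 < p.eval ((k.factorial : ℕ) : ℝ) := by
  rcases Nat.eq_zero_or_pos p.natDegree with h0 | h0
  · have h1 := Polynomial.eq_C_of_natDegree_eq_zero h0
    refine Filter.Eventually.of_forall fun k => ?_
    rw [h1, Polynomial.eval_C]
    rw [h1, Polynomial.leadingCoeff_C] at hp
    exact hp
  · have h1 := Polynomial.tendsto_atTop_of_leadingCoeff_nonneg p
      (Polynomial.natDegree_pos_iff_degree_pos.1 h0) hp.le
    exact (h1.comp fact_tendsto).eventually_gt_atTop 0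

lemma ev_neg {p : ℝ[X]} (hp : p.leadingCoeff < 0) : ∀ᶠ k : ℕ in atTop, p.eval ((k.factorial : ℕ) : ℝ) < 0 := by
  have h1 : 0 < (-p).leadingCoeff := by rw [Polynomial.leadingCoeff_neg]; linarith
  filter_upwards [ev_pos h1] with k hk
  rw [Polynomial.eval_neg] at hk
  linarith

lemma ev_ne {p : ℝ[X]} (hp : p ≠ 0) : ∀ᶠ k : ℕ in atTop, p.eval ((k.factorial : ℕ) : ℝ) ≠ 0 := by
  have h1 : p.leadingCoeff ≠ 0 := Polynomial.leadingCoeff_ne_zero.2 hp
  rcases lt_or_gt_of_ne h1 with h | h
  · filter_upwards [ev_neg h] with k hk using hk.ne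
  · filter_upwards [ev_pos h] with k hk using hk.ne'

lemma int_val (p : ℚ[X]) : ∀ᶠ k : ℕ in atTop, ∃ z : ℤ,
    ((k.factorial : ℕ) : ℚ) * p.eval ((k.factorial : ℕ) : ℚ) = z := by
  induction p using Polynomial.induction_on' with
  | add p q hp hq =>
    filter_upwards [hp, hq] with k ⟨z, hz⟩ ⟨w, hw⟩
    refine ⟨z + w, ?_⟩
    rw [Polynomial.eval_add, mul_add, hz, hw]; push_cast; rfl
  | monomial j a =>
    filter_upwards [Filter.eventually_ge_atTop a.den] with k hk
    obtain ⟨m, hm⟩ : a.den ∣ k.factorial := Nat.dvd_factorial a.den_pos hk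
    refine ⟨m * a.num * (k.factorial : ℤ) ^ j, ?_⟩
    rw [Polynomial.eval_monomial]
    have h1 : (a.den : ℚ) * a = a.num := by
      rw [mul_comm]; exact Rat.mul_den_eq_num a
    have h2 : ((k.factorial : ℕ) : ℚ) = a.den * m := by rw [hm]; push_cast; rfl
    calc ((k.factorial : ℕ) : ℚ) * (a * ((k.factorial : ℕ) : ℚ) ^ j)
        = (m * (a.den * a)) * ((k.factorial : ℕ) : ℚ) ^ j := by
          nth_rewrite 1 [h2]; ring
      _ = _ := by rw [h1]; push_cast; ring

/-- a polynomial with rational coefficients takes at `k!` values congruent to the constant coefficient -/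
lemma int_val_real {p : ℝ[X]} (hp : ∀ j, ∃ r : ℚ, p.coeff j = r) : ∀ᶠ k : ℕ in atTop, ∃ z : ℤ,
    p.eval ((k.factorial : ℕ) : ℝ) = p.coeff 0 + z := by
  have h1 : p ∈ Polynomial.lifts (algebraMap ℚ ℝ) := by
    rw [Polynomial.lifts_iff_coeff_lifts]
    intro j
    obtain ⟨r, hr⟩ := hp j
    exact ⟨r, by rw [hr]; rfl⟩
  obtain ⟨p', hp'⟩ := (Polynomial.mem_lifts _).1 h1
  filter_upwards [int_val p'.divX] with k ⟨z, hz⟩
  refine ⟨z, ?_⟩
  have h2 : p'.eval ((k.factorial : ℕ) : ℚ) = p'.coeff 0 + z := by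
    conv_lhs => rw [← Polynomial.divX_mul_X_add p']
    rw [Polynomial.eval_add, Polynomial.eval_mul, Polynomial.eval_X, Polynomial.eval_C, ← hz]
    ring
  rw [← hp', Polynomial.coeff_map]
  have h3 : (p'.map (algebraMap ℚ ℝ)).eval ((k.factorial : ℕ) : ℝ)
      = ((p'.eval ((k.factorial : ℕ) : ℚ) : ℚ) : ℝ) := by
    have := Polynomial.eval_map_apply (p := p') (f := algebraMap ℚ ℝ) (((k.factorial : ℕ) : ℚ))
    simpa using this
  rw [h3, h2]
  push_cast
  rfl

end Pool.Agent.H88.BS
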