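import Pool.Agent.H88.BS.Dens

/-!
# Bad parameters which tend to a given parameter in `ℝ³` and in `ℚ_ℓ³` for all primes `ℓ ≤ m`
-/

set_option autoImplicit false

namespace Pool.Agent.H88.BS

open Filter Pool.Agent.H78.BN Pool.Agent.H88.BR

/-- a limit in a topological field -/
lemma seq_lim {F : Type*} [Field F] [TopologicalSpace F] [IsTopologicalDivisionRing F]
    {S Z : ℕ → F} (hS : ∀ j, S j ≠ 0) (hZ : Tendsto (fun j => Z j / S j) atTop (nhds 0))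
    (A a c : F) (hA : A ≠ 0) :
    Tendsto (fun j => (a * S j + c * Z j) / (A * S j + Z j)) atTop (nhds (a / A)) := by
  have h1 : Tendsto (fun j => (a + c * (Z j / S j)) / (A + Z j / S j)) atTop
      (nhds ((a + c * 0) / (A + 0))) :=
    ((tendsto_const_nhds.add (tendsto_const_nhds.mul hZ))).div (tendsto_const_nhds.add hZ)
      (by rwa [add_zero])
  rw [mul_zero, add_zero, add_zero] at h1
  refine h1.congr fun j => ?_
  have h2 := hS j
  have e1 : a + c * (Z j / S j) = (a * S j + c * Z j) / S j := by field_simp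
  have e2 : A + Z j / S j = (A * S j + Z j) / S j := by field_simp
  rw [e1, e2, div_div_div_cancel_right₀ h2]

/-- **Bad parameters near a given one.** -/
theorem bad_seq (m : ℕ) {A a b r : ℕ} (hA : 1 ≤ A) (ha : 1 ≤ a) (hb : 1 ≤ b) (hbA : b < A) :
    ∃ (g : ℕ) (A' a' b' r' : ℕ → ℕ), 3 ≤ g ∧ Odd g ∧
      (∀ j, 1 ≤ A' j ∧ 1 ≤ a' j ∧ 1 ≤ b' j ∧ b' j < A' j ∧ (g:ℤ) ∣ (A' j : ℤ) - b' j ∧
        g ∣ a' j + 3 * b' j ∧ Nat.Coprime (r' j + b' j) g) ∧
      Tendsto (fun j => toR (pt (A' j) (a' j) (b' j) (r' j))) atTop (nhds (toR (pt A a b r))) ∧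
      ∀ (ℓ : ℕ) [Fact ℓ.Prime], ℓ ≤ m → ∀ i, Tendsto
        (fun j => ((pt (A' j) (a' j) (b' j) (r' j) i : ℚ) : ℚ_[ℓ])) atTop
        (nhds ((pt A a b r i : ℚ) : ℚ_[ℓ])) := by
  obtain ⟨g, hgm, hg⟩ := Nat.exists_infinite_primes (m + 5)
  set M := (m + 2).factorial with hM
  have hM1 : 1 ≤ M := Nat.factorial_pos _
  have hM2 : 2 ≤ M := le_trans (by omega : 2 ≤ m + 2) (Nat.self_le_factorial _)
  have hcop : Nat.Coprime M g := by
    rw [Nat.coprime_comm]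
    refine (Nat.Prime.coprime_iff_not_dvd hg).2 fun h => ?_
    have := (Nat.Prime.dvd_factorial hg).1 h
    omega
  set W := M ^ (g - 1) with hW
  have hWmod : W ≡ 1 [MOD g] := by
    have h1 := Nat.ModEq.pow_totient hcop
    rwa [Nat.totient_prime hg] at h1
  have hW2 : 2 ≤ W := by
    rw [hW]
    calc 2 ≤ M := hM2
      _ = M ^ 1 := (pow_one _).symm
      _ ≤ M ^ (g - 1) := Nat.pow_le_pow_right hM1 (by omega)
  let Z : ℕ → ℕ := fun j => W ^ (j + 1)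
  let S : ℕ → ℕ := fun j => 1 + (g - 1) * (Z j) ^ 2
  have hZmod : ∀ j, Z j ≡ 1 [MOD g] := by
    intro j
    have := hWmod.pow (j + 1)
    rwa [one_pow] at this
  have hZ1 : ∀ j, 1 ≤ Z j := fun j => Nat.one_le_pow _ _ (by omega)
  have hS1 : ∀ j, 1 ≤ S j := fun j => Nat.le_add_right _ _
  have hSg : ∀ j, g ∣ S j := by
    intro j
    have h1 : S j ≡ 1 + (g - 1) * 1 ^ 2 [MOD g] := ((hZmod j).pow 2).mul_left (g - 1) |>.add_left 1
    have h2 : 1 + (g - 1) * 1 ^ 2 = g := by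
      have := hg.one_lt
      rw [one_pow, mul_one]
      omega
    rw [h2] at h1
    exact (Nat.modEq_zero_iff_dvd).1 (h1.trans (by
      rw [Nat.modEq_zero_iff_dvd]))
  refine ⟨g, fun j => A * S j + Z j, fun j => a * S j + (g - 3) * Z j, fun j => b * S j + Z j,
    fun j => r * S j, by omega, ?_, ?_, ?_, ?_⟩
  · exact hg.odd_of_ne_two (by omega)
  · intro j
    have q1 := hS1 j
    have q2 := hZ1 j
    have q3 : 1 ≤ A * S j := Nat.mul_pos (by omega) q1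
    have q4 : 1 ≤ a * S j := Nat.mul_pos (by omega) q1
    have q5 : 1 ≤ b * S j := Nat.mul_pos (by omega) q1
    refine ⟨le_trans q3 (Nat.le_add_right _ _), le_trans q4 (Nat.le_add_right _ _),
      le_trans q5 (Nat.le_add_right _ _), ?_, ?_, ?_, ?_⟩
    · have h5 : b * S j < A * S j := Nat.mul_lt_mul_of_pos_right hbA q1
      exact Nat.add_lt_add_right h5 _
    · obtain ⟨e, he⟩ := hSg j
      refine ⟨((A:ℤ) - b) * e, ?_⟩
      push_cast
      have : ((S j : ℕ) : ℤ) = g * e := by exact_mod_cast he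
      rw [this]
      ring
    · obtain ⟨e, he⟩ := hSg j
      obtain ⟨g', hg'⟩ : ∃ g', g = g' + 3 := ⟨g - 3, by omega⟩
      refine ⟨(a + 3 * b) * e + Z j, ?_⟩
      have h1 : g - 3 = g' := by omega
      rw [h1]
      calc a * S j + g' * Z j + 3 * (b * S j + Z j)
          = (a + 3 * b) * S j + (g' + 3) * Z j := by ring
        _ = (a + 3 * b) * (g * e) + g * Z j := by rw [he, ← hg']
        _ = _ := by ring
    · obtain ⟨e, he⟩ := hSg j
      have h1 : r * S j + (b * S j + Z j) = Z j + ((r + b) * e) * g := by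
        rw [he]; ring
      show Nat.Coprime (r * S j + (b * S j + Z j)) g
      rw [h1, Nat.coprime_add_mul_right_left]
      exact Nat.Coprime.pow_left _ (Nat.Coprime.pow_left _ hcop)
  · -- the real limit
    have hAR : (A:ℝ) ≠ 0 := by
      have : (1:ℝ) ≤ A := by exact_mod_cast hA
      linarith
    have hSR : ∀ j, ((S j : ℕ) : ℝ) ≠ 0 := by
      intro j
      have : (1:ℝ) ≤ S j := by exact_mod_cast hS1 j
      linarith
    have hZt : Tendsto (fun j => ((Z j : ℕ) : ℝ)) atTop atTop := by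
      refine tendsto_atTop_mono (fun j => ?_) (tendsto_natCast_atTop_atTop (R := ℝ))
      have h1 : j < 2 ^ j := Nat.lt_two_pow_self
      have h2 : 2 ^ j ≤ W ^ (j + 1) := by
        calc 2 ^ j ≤ W ^ j := Nat.pow_le_pow_left hW2 j
          _ ≤ W ^ (j + 1) := Nat.pow_le_pow_right (by omega) (by omega)
      show (j:ℝ) ≤ ((W ^ (j + 1) : ℕ) : ℝ)
      exact_mod_cast (by omega : j ≤ W ^ (j + 1))
    have hy : Tendsto (fun j => ((Z j : ℕ) : ℝ) / ((S j : ℕ) : ℝ)) atTop (nhds 0) := by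
      refine squeeze_zero (fun j => by positivity) (fun j => ?_)
        (tendsto_inv_atTop_zero.comp hZt)
      show ((Z j : ℕ) : ℝ) / ((S j : ℕ) : ℝ) ≤ (((Z j : ℕ) : ℝ))⁻¹
      have q1 : (1:ℝ) ≤ Z j := by exact_mod_cast hZ1 j
      have q2 : (0:ℝ) < S j := by
        have : (1:ℝ) ≤ S j := by exact_mod_cast hS1 j
        linarith
      rw [div_le_iff₀ q2, ← div_eq_inv_mul, le_div_iff₀ (by linarith)]
      have q3 : Z j * Z j ≤ S j := by
        show Z j * Z j ≤ 1 + (g - 1) * (Z j) ^ 2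
        have : 1 * (Z j) ^ 2 ≤ (g - 1) * (Z j) ^ 2 := Nat.mul_le_mul_right _ (by omega)
        have e : Z j * Z j = (Z j) ^ 2 := by ring
        omega
      exact_mod_cast q3
    refine pt_lim ?_ ?_ ?_
    · rw [pt_zero]
      refine (seq_lim hSR hy (A:ℝ) a ((g - 3 : ℕ) : ℝ) hAR).congr fun j => ?_
      push_cast
      rfl
    · rw [pt_one]
      refine (seq_lim hSR hy (A:ℝ) b 1 hAR).congr fun j => ?_
      push_cast
      rw [one_mul]
    · rw [pt_two]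
      refine (seq_lim hSR hy (A:ℝ) r 0 hAR).congr fun j => ?_
      push_cast
      rw [zero_mul, add_zero]
  · -- the `ℓ`-adic limits
    intro ℓ hℓ hℓm i
    have hAQ : (A : ℚ_[ℓ]) ≠ 0 := by exact_mod_cast (by omega : A ≠ 0)
    have hSQ : ∀ j, ((S j : ℕ) : ℚ_[ℓ]) ≠ 0 := by
      intro j
      have := hS1 j
      exact_mod_cast (by omega : S j ≠ 0)
    have hWn : ‖((W : ℕ) : ℚ_[ℓ])‖ < 1 := by
      rw [Padic.norm_natCast_lt_one_iff]
      have h1 : ℓ ∣ M := (Nat.Prime.dvd_factorial hℓ.out).2 (by omega)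
      exact dvd_pow h1 (by omega)
    have hZt : Tendsto (fun j => ((Z j : ℕ) : ℚ_[ℓ])) atTop (nhds 0) := by
      have h1 := (tendsto_pow_atTop_nhds_zero_of_norm_lt_one hWn).comp (tendsto_add_atTop_nat 1)
      refine h1.congr fun j => ?_
      show ((W : ℕ) : ℚ_[ℓ]) ^ (j + 1) = ((W ^ (j + 1) : ℕ) : ℚ_[ℓ])
      push_cast
      rfl
    have hSt : Tendsto (fun j => ((S j : ℕ) : ℚ_[ℓ])) atTop (nhds 1) := by
      have h1 : Tendsto (fun j => (1 : ℚ_[ℓ]) + ((g - 1 : ℕ) : ℚ_[ℓ]) * ((Z j : ℕ) : ℚ_[ℓ]) ^ 2) atTop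
          (nhds (1 + ((g - 1 : ℕ) : ℚ_[ℓ]) * 0 ^ 2)) :=
        tendsto_const_nhds.add (tendsto_const_nhds.mul (hZt.pow 2))
      have e : (1 : ℚ_[ℓ]) + ((g - 1 : ℕ) : ℚ_[ℓ]) * 0 ^ 2 = 1 := by ring
      rw [e] at h1
      refine h1.congr fun j => ?_
      show _ = ((1 + (g - 1) * (Z j) ^ 2 : ℕ) : ℚ_[ℓ])
      push_cast
      rfl
    have hy : Tendsto (fun j => ((Z j : ℕ) : ℚ_[ℓ]) / ((S j : ℕ) : ℚ_[ℓ])) atTop (nhds 0) := by
      have h1 := hZt.div hSt one_ne_zero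
      rwa [zero_div] at h1
    fin_cases i
    · show Tendsto (fun j => ((((a * S j + (g - 3) * Z j : ℕ) : ℚ) / ((A * S j + Z j : ℕ) : ℚ) : ℚ) : ℚ_[ℓ]))
        atTop (nhds (((((a : ℕ) : ℚ) / ((A : ℕ) : ℚ) : ℚ)) : ℚ_[ℓ]))
      have h1 := seq_lim hSQ hy (A : ℚ_[ℓ]) a ((g - 3 : ℕ) : ℚ_[ℓ]) hAQ
      have e : (((((a : ℕ) : ℚ) / ((A : ℕ) : ℚ) : ℚ)) : ℚ_[ℓ]) = (a : ℚ_[ℓ]) / A := by
        push_cast
        rfl
      rw [e]
      refine h1.congr fun j => ?_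
      push_cast
      rfl
    · show Tendsto (fun j => ((((b * S j + Z j : ℕ) : ℚ) / ((A * S j + Z j : ℕ) : ℚ) : ℚ) : ℚ_[ℓ]))
        atTop (nhds (((((b : ℕ) : ℚ) / ((A : ℕ) : ℚ) : ℚ)) : ℚ_[ℓ]))
      have h1 := seq_lim hSQ hy (A : ℚ_[ℓ]) b 1 hAQ
      have e : (((((b : ℕ) : ℚ) / ((A : ℕ) : ℚ) : ℚ)) : ℚ_[ℓ]) = (b : ℚ_[ℓ]) / A := by
        push_cast
        rfl
      rw [e]
      refine h1.congr fun j => ?_
      push_cast
      rw [one_mul]
    · show Tendsto (fun j => ((((r * S j : ℕ) : ℚ) / ((A * S j + Z j : ℕ) : ℚ) : ℚ) : ℚ_[ℓ]))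
        atTop (nhds (((((r : ℕ) : ℚ) / ((A : ℕ) : ℚ) : ℚ)) : ℚ_[ℓ]))
      have h1 := seq_lim hSQ hy (A : ℚ_[ℓ]) r 0 hAQ
      have e : (((((r : ℕ) : ℚ) / ((A : ℕ) : ℚ) : ℚ)) : ℚ_[ℓ]) = (r : ℚ_[ℓ]) / A := by
        push_cast
        rfl
      rw [e]
      refine h1.congr fun j => ?_
      push_cast
      rw [zero_mul, add_zero]

end Pool.Agent.H88.BS
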